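import Pool.Agent.helper24.TG.Props

set_option linter.all false
set_option autoImplicit false

/-!
# The inequality (A2) (MP_ce98d8_co, 9.6)
-/

namespace Pool.Agent.helper41.TGE

open Finset Classical
open Pool.Agent.helper24.TG

section

variable {P O A V : Type} [Fintype P] [DecidableEq P] [Fintype O] [DecidableEq O]
  [Fintype A] [DecidableEq A] [AddCommGroup A] [Fintype V] [DecidableEq V]

/-- the number of points in the other slices -/
noncomputable def Other (p : Par) (S : Fin p.C → Finset (P × A)) (c0 : Fin p.C) : ℝ :=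
  ∑ j ∈ Finset.univ.erase c0, ((S j).card : ℝ)

/-- the points of the main slice with label in `M` in the ball -/
noncomputable def QM (p : Par) (H : Host P O p.q) (v : O → A) (φ : Fin p.C → P → V)
    (S : Fin p.C → Finset (P × A)) (c0 : Fin p.C) (M : Finset V) (z : P × A) : ℝ :=
  ((S c0 ∩ labS A (φ c0) M ∩ Ball H v z).card : ℝ)

/-- the exceptional points of the other slices -/
noncomputable def EE (p : Par) (H : Host P O p.q) (v : O → A)
    (S : Fin p.C → Finset (P × A)) (c0 : Fin p.C) (z : P × A) : ℝ :=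
  ∑ j ∈ Finset.univ.erase c0, ((S j \ Nb H v (p.hf j != p.hf c0) z).card : ℝ)

/-- the missing points of the main slice with label in `U` -/
noncomputable def RU (p : Par) (H : Host P O p.q) (φ : Fin p.C → P → V)
    (S : Fin p.C → Finset (P × A)) (c0 : Fin p.C) (U : Finset V) : ℝ :=
  (((XA A H ∩ labS A (φ c0) U) \ S c0).card : ℝ)

/-- (A2) -/
def A2 (p : Par) (H : Host P O p.q) (v : O → A) (φ : Fin p.C → P → V)
    (S : Fin p.C → Finset (P × A)) (c0 : Fin p.C) (U M : Finset V) (z : P × A) : Prop :=
  Other p S c0 + p.w * p.d + (1 / (p.c : ℝ) ^ 4) * (QM p H v φ S c0 M z + EE p H v S c0 z) ≤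
    p.q * (p.C - 1) + RU p H φ S c0 U + (1 / 3) * (p.B * p.w * (p.d - U.card))

/-- the points of the other slices with given polarity -/
noncomputable def ES (p : Par) (S : Fin p.C → Finset (P × A)) (c0 : Fin p.C) (i : Bool) :
    Finset (P × A) :=
  (Finset.univ.filter (fun j : Fin p.C => j ≠ c0 ∧ (p.hf j != p.hf c0) = i)).biUnion S

@[simp] theorem mem_ES {p : Par} {S : Fin p.C → Finset (P × A)} {c0 : Fin p.C} {i : Bool}
    {x : P × A} : x ∈ ES p S c0 i ↔ ∃ j, (j ≠ c0 ∧ (p.hf j != p.hf c0) = i) ∧ x ∈ S j := by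
  simp [ES]

end

end Pool.Agent.helper41.TGE
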