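import Pool.Agent.helper41.TGE.Main
import Pool.Agent.helper40.TGS.CaseS5
import Pool.Agent.helper24.TG.S9

set_option linter.all false
set_option autoImplicit false

/-!
# The core of the step theorem: exactness and stability (MP_ce98d8_co, sections 9 and 10)
-/

namespace Pool.Agent.helper41.TGE

open Finset Classical
open Pool.Agent.helper24.TG

/-- sections 9 and 10 -/
theorem Core : Core_stmt := by
  intro p P O A V _ _ _ _ _ _ _ _ _ H v T MM φ hA h2 hT hH hP S hS
  have hcS : CaseS p H v T MM φ := by
    intro S c0 U M hS hR hM hU hUM hE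
    exact Pool.Agent.helper40.TGS.caseS hP hS hT U M hM hU hUM hE
  obtain ⟨z, c0, M, hz, hM, h⟩ := stab_main hA hT hP hcS S hS
  exact ⟨z, c0, M, hM, hz, h⟩

end Pool.Agent.helper41.TGE
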