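import Pool.Agent.helper41.TGE.GraphB

set_option linter.all false
set_option autoImplicit false

/-!
# The new graph (MP_ce98d8_co, section 11): mixing, and the final statement
-/

namespace Pool.Agent.helper41.TGE

open Finset Classical
open Pool.Agent.helper24.TG
open Pool.Agent.helper11.Tight (nb eo mem_nb)

section GraphC

variable {P O A V : Type} [Fintype P] [DecidableEq P] [Fintype O] [DecidableEq O]
  [Fintype A] [DecidableEq A] [AddCommGroup A] [Fintype V] [DecidableEq V]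
variable {p : Par} {H : Host P O p.q} {v : O → A} {T : SimpleGraph V} {φ : Fin p.C → P → V}
  {MM : Finset (Finset V)}

/-- the cross pairs of two copies are counted by `eH` -/
theorem eo_ge (Y Z : Finset (XT A H × Fin p.C)) :
    ∑ j, ∑ j' ∈ Finset.univ.erase j, eH H v (p.hf j != p.hf j') (slice Y j) (slice Z j') ≤
      eo (GG p H v T φ) Y Z := by
  have h1 : ∑ j, ∑ j' ∈ Finset.univ.erase j,
      eH H v (p.hf j != p.hf j') (slice Y j) (slice Z j') =
      ∑ t ∈ (Finset.univ ×ˢ Finset.univ : Finset (Fin p.C × Fin p.C)).filter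
        (fun t => t.1 ≠ t.2), eH H v (p.hf t.1 != p.hf t.2) (slice Y t.1) (slice Z t.2) := by
    rw [Finset.sum_filter, Finset.sum_product]
    apply Finset.sum_congr rfl
    intro j _
    rw [← Finset.sum_filter]
    apply Finset.sum_congr _ (fun _ _ => rfl)
    ext j'
    simp [eq_comm]
  rw [h1]
  unfold eo
  have h2 : ((Y ×ˢ Z).filter (fun t => (GG p H v T φ).Adj t.1 t.2)).card =
      ∑ t ∈ (Finset.univ ×ˢ Finset.univ : Finset (Fin p.C × Fin p.C)),
        (((Y ×ˢ Z).filter (fun t => (GG p H v T φ).Adj t.1 t.2)).filter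
          (fun r => (r.1.2, r.2.2) = t)).card := by
    apply Finset.card_eq_sum_card_fiberwise
    intro t _
    simp
  rw [h2]
  refine le_trans ?_ (Finset.sum_le_sum_of_subset (Finset.filter_subset
    (fun t : Fin p.C × Fin p.C => t.1 ≠ t.2) _))
  apply Finset.sum_le_sum
  rintro ⟨j, j'⟩ hjj
  rw [Finset.mem_filter] at hjj
  have hne : j ≠ j' := hjj.2
  unfold eH
  rw [← Finset.card_image_of_injOn (s := (((Y ×ˢ Z).filter
    (fun t => (GG p H v T φ).Adj t.1 t.2)).filter
          (fun r => (r.1.2, r.2.2) = (j, j')))) (f := fun r => (r.1.1.1, r.2.1.1))]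
  · apply Finset.card_le_card
    rintro ⟨x, y⟩ hxy
    simp only [Finset.mem_filter, Finset.mem_product] at hxy
    obtain ⟨⟨hx, hy⟩, hn⟩ := hxy
    rw [mem_slice] at hx hy
    obtain ⟨hx1, hx2⟩ := hx
    obtain ⟨hy1, hy2⟩ := hy
    rw [Finset.mem_image]
    refine ⟨((⟨x, hx1⟩, j), (⟨y, hy1⟩, j')), ?_, rfl⟩
    simp only [Finset.mem_filter, Finset.mem_product, and_true]
    refine ⟨⟨hx2, hy2⟩, ?_⟩
    rw [GG_adj]
    unfold adjG
    rw [if_neg hne]
    exact hn
  · rintro ⟨⟨x, a⟩, ⟨y, b⟩⟩ h ⟨⟨x', a'⟩, ⟨y', b'⟩⟩ h' e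
    simp only [Finset.coe_filter, Set.mem_setOf_eq, Prod.mk.injEq] at h h' e
    obtain ⟨_, rfl, rfl⟩ := h
    obtain ⟨_, rfl, rfl⟩ := h'
    obtain ⟨e1, e2⟩ := e
    have := Subtype.ext e1
    have := Subtype.ext e2
    subst_vars
    simp_all

/-- a slice has at most `B q ^ 2` points -/
theorem slice_le (hA : Fintype.card A = p.B) (Y : Finset (XT A H × Fin p.C)) (j : Fin p.C) :
    (slice Y j).card ≤ p.B * p.q ^ 2 := by
  rw [← hA, ← card_XA (A := A) (H := H)]
  apply Finset.card_le_card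
  intro x hx
  rw [mem_slice] at hx
  rw [mem_XA]
  exact hx.1

/-- the large slices carry half of the set -/
theorem large_slices (Y : Finset (XT A H × Fin p.C)) :
    Y.card ≤ 2 * ∑ j ∈ Finset.univ.filter (fun j => Y.card ≤ 2 * p.C * (slice Y j).card),
      (slice Y j).card := by
  have h1 := card_slice Y
  rw [← Finset.sum_filter_add_sum_filter_not _
    (fun j => Y.card ≤ 2 * p.C * (slice Y j).card)] at h1
  set s1 := ∑ j ∈ Finset.univ.filter (fun j => Y.card ≤ 2 * p.C * (slice Y j).card),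
      (slice Y j).card with hs1
  set s2 := ∑ j ∈ Finset.univ.filter (fun j => ¬ Y.card ≤ 2 * p.C * (slice Y j).card),
      (slice Y j).card with hs2
  have h2 : 2 * p.C * s2 ≤ p.C * Y.card := by
    rw [hs2, Finset.mul_sum]
    calc ∑ j ∈ Finset.univ.filter (fun j => ¬ Y.card ≤ 2 * p.C * (slice Y j).card),
        2 * p.C * (slice Y j).card ≤
        ∑ j ∈ Finset.univ.filter (fun j => ¬ Y.card ≤ 2 * p.C * (slice Y j).card), Y.card := by
          apply Finset.sum_le_sum
          intro j hj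
          rw [Finset.mem_filter] at hj
          omega
      _ = (Finset.univ.filter (fun j => ¬ Y.card ≤ 2 * p.C * (slice Y j).card)).card * Y.card := by
          rw [Finset.sum_const, smul_eq_mul]
      _ ≤ _ := by
          apply Nat.mul_le_mul_right
          refine (Finset.card_le_univ _).trans ?_
          simp
  have h3 : 2 * s2 ≤ Y.card := by
    have hC := C_pos p
    have : p.C * (2 * s2) ≤ p.C * Y.card := by
      calc p.C * (2 * s2) = 2 * p.C * s2 := by ring
        _ ≤ _ := h2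
    exact Nat.le_of_mul_le_mul_left this hC
  omega

theorem mix_GG (hA : Fintype.card A = p.B) (h6 : H6 p H v) {E1 : ℕ} (hE1 : 8 * E1 ≤ p.C)
    (hE2 : 2 * p.c ^ 2 * E1 ≤ p.sq) (Y Z : Finset (XT A H × Fin p.C))
    (hY : p.B * p.q ^ 2 * p.C ≤ E1 * Y.card) (hZ : p.B * p.q ^ 2 * p.C ≤ E1 * Z.card) :
    Y.card * Z.card * p.k ≤ (p.B * p.q ^ 2 * p.C) * (p.c ^ 2 * p.B) * eo (GG p H v T φ) Y Z := by
  have hC := C_pos p
  have hq := q_pos p
  have hB := B_pos p
  have hc := c_pos p
  have hsq : p.q = p.sq ^ 2 := p.hq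
  -- large slices exceed the threshold
  have hth : ∀ W : Finset (XT A H × Fin p.C), p.B * p.q ^ 2 * p.C ≤ E1 * W.card →
      ∀ j, W.card ≤ 2 * p.C * (slice W j).card → p.W0 ≤ (slice W j).card := by
    intro W hW j hj
    unfold Par.W0
    by_contra hlt
    push_neg at hlt
    have hE0 : 0 < E1 := by
      rcases Nat.eq_zero_or_pos E1 with h | h
      · rw [h] at hW
        simp at hW
        rcases hW with (hW | hW) | hW <;> omega
      · exact h
    have h1 : p.B * p.q ^ 2 * p.C ≤ E1 * (2 * p.C * (slice W j).card) :=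
      hW.trans (Nat.mul_le_mul_left _ hj)
    have h2 : E1 * (2 * p.C * (slice W j).card) <
        E1 * (2 * p.C * (p.c ^ 2 * p.B * p.q * p.sq)) := by
      apply Nat.mul_lt_mul_of_pos_left _ hE0
      apply Nat.mul_lt_mul_of_pos_left hlt
      omega
    have h3 : E1 * (2 * p.C * (p.c ^ 2 * p.B * p.q * p.sq)) =
        (2 * p.c ^ 2 * E1) * (p.B * p.C * p.q * p.sq) := by ring
    have h4 : (2 * p.c ^ 2 * E1) * (p.B * p.C * p.q * p.sq) ≤
        p.sq * (p.B * p.C * p.q * p.sq) := Nat.mul_le_mul_right _ hE2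
    have h5 : p.sq * (p.B * p.C * p.q * p.sq) = p.B * p.q ^ 2 * p.C := by
      have : p.sq * (p.B * p.C * p.q * p.sq) = p.B * p.C * p.q * p.sq ^ 2 := by ring
      rw [this, ← hsq]; ring
    omega
  set JY := Finset.univ.filter (fun j => Y.card ≤ 2 * p.C * (slice Y j).card) with hJY
  set JZ := Finset.univ.filter (fun j => Z.card ≤ 2 * p.C * (slice Z j).card) with hJZ
  have hYl := large_slices Y
  have hZl := large_slices Z
  rw [← hJY] at hYl
  rw [← hJZ] at hZl
  set sY := ∑ j ∈ JY, (slice Y j).card with hsY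
  set sZ := ∑ j ∈ JZ, (slice Z j).card with hsZ
  -- pairs of different copies
  have hpairs : ∑ j ∈ JY, ∑ j' ∈ JZ.erase j, (slice Y j).card * (slice Z j').card ≤
      10 ^ 5 * p.B * p.q * eo (GG p H v T φ) Y Z := by
    calc ∑ j ∈ JY, ∑ j' ∈ JZ.erase j, (slice Y j).card * (slice Z j').card
        ≤ ∑ j ∈ JY, ∑ j' ∈ JZ.erase j,
          10 ^ 5 * p.B * p.q * eH H v (p.hf j != p.hf j') (slice Y j) (slice Z j') := by
          apply Finset.sum_le_sum
          intro j hj
          apply Finset.sum_le_sum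
          intro j' hj'
          rw [hJY, Finset.mem_filter] at hj
          have hj'2 := Finset.mem_of_mem_erase hj'
          rw [hJZ, Finset.mem_filter] at hj'2
          exact h6 _ _ _ (hth Y hY j hj.2) (hth Z hZ j' hj'2.2)
      _ ≤ ∑ j, ∑ j' ∈ Finset.univ.erase j,
          10 ^ 5 * p.B * p.q * eH H v (p.hf j != p.hf j') (slice Y j) (slice Z j') := by
          refine le_trans ?_ (Finset.sum_le_sum_of_subset (Finset.subset_univ JY))
          apply Finset.sum_le_sum
          intro j hj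
          apply Finset.sum_le_sum_of_subset
          exact Finset.erase_subset_erase _ (Finset.subset_univ _)
      _ = 10 ^ 5 * p.B * p.q * ∑ j, ∑ j' ∈ Finset.univ.erase j,
          eH H v (p.hf j != p.hf j') (slice Y j) (slice Z j') := by
          rw [Finset.mul_sum]
          apply Finset.sum_congr rfl
          intro j _
          rw [Finset.mul_sum]
      _ ≤ _ := Nat.mul_le_mul_left _ (eo_ge Y Z)
  have hdiag : sY * sZ ≤ ∑ j ∈ JY, ∑ j' ∈ JZ.erase j, (slice Y j).card * (slice Z j').card +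
      p.B * p.q ^ 2 * Z.card := by
    have h1 : sY * sZ = ∑ j ∈ JY, ∑ j' ∈ JZ, (slice Y j).card * (slice Z j').card := by
      rw [hsY, hsZ, Finset.sum_mul_sum]
    rw [h1]
    have h2 : ∀ j ∈ JY, ∑ j' ∈ JZ, (slice Y j).card * (slice Z j').card ≤
        ∑ j' ∈ JZ.erase j, (slice Y j).card * (slice Z j').card +
          p.B * p.q ^ 2 * (slice Z j).card := by
      intro j _
      by_cases hj : j ∈ JZ
      · rw [← Finset.add_sum_erase _ _ hj, add_comm]
        apply Nat.add_le_add_left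
        exact Nat.mul_le_mul_right _ (slice_le hA Y j)
      · rw [Finset.erase_eq_of_notMem hj]
        omega
    refine (Finset.sum_le_sum h2).trans ?_
    rw [Finset.sum_add_distrib]
    apply Nat.add_le_add_left
    rw [← Finset.mul_sum]
    apply Nat.mul_le_mul_left
    rw [card_slice Z]
    exact Finset.sum_le_sum_of_subset (Finset.subset_univ _)
  -- `8 B q^2 |Z| ≤ |Y| |Z|`
  have h8 : 8 * (p.B * p.q ^ 2) ≤ Y.card := by
    have h1 : 8 * (p.B * p.q ^ 2) * E1 ≤ Y.card * E1 := by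
      calc 8 * (p.B * p.q ^ 2) * E1 = p.B * p.q ^ 2 * (8 * E1) := by ring
        _ ≤ p.B * p.q ^ 2 * p.C := Nat.mul_le_mul_left _ hE1
        _ ≤ E1 * Y.card := hY
        _ = _ := mul_comm _ _
    have hE0 : 0 < E1 := by
      rcases Nat.eq_zero_or_pos E1 with h | h
      · rw [h] at hY
        simp at hY
        rcases hY with (hY | hY) | hY <;> omega
      · exact h
    exact Nat.le_of_mul_le_mul_right h1 hE0
  have h9 : 8 * (p.B * p.q ^ 2 * Z.card) ≤ Y.card * Z.card := by
    calc 8 * (p.B * p.q ^ 2 * Z.card) = 8 * (p.B * p.q ^ 2) * Z.card := by ring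
      _ ≤ _ := Nat.mul_le_mul_right _ h8
  have h10 : Y.card * Z.card ≤ 4 * (sY * sZ) := by
    calc Y.card * Z.card ≤ (2 * sY) * (2 * sZ) := Nat.mul_le_mul hYl hZl
      _ = _ := by ring
  have h11 : Y.card * Z.card ≤ 8 * (10 ^ 5 * p.B * p.q * eo (GG p H v T φ) Y Z) := by
    omega
  -- numbers
  have h12 : 8 * 10 ^ 5 * p.k ≤ p.c ^ 2 * p.B * p.q * p.C := by
    have hcr := rc p
    have hc0 := rc0 p
    have hBr := rB p
    have hB1 : (1 : ℝ) ≤ p.B := by exact_mod_cast B_pos p
    have hqr := rq p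
    have hCr := rC p
    have hk : (p.k : ℝ) ≤ p.q * p.C + p.B * (p.w * p.d) := by
      rw [k_cast]
      have : 0 ≤ (p.w : ℝ) * p.d := mul_nonneg (rw' p).le (rd p).le
      nlinarith
    have h1 := qC_ge p
    have hwd : (p.w : ℝ) * p.d ≤ p.q * p.C := by
      have hwd0 : 0 ≤ (p.w : ℝ) * p.d := mul_nonneg (rw' p).le (rd p).le
      have : (1 : ℝ) ≤ p.c ^ 3 := one_le_pow₀ (rc1 p)
      nlinarith
    have h2 : (p.k : ℝ) ≤ 2 * p.B * (p.q * p.C) := by
      have hqC : 0 ≤ (p.q : ℝ) * p.C := by positivity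
      have h3 : p.B * ((p.w : ℝ) * p.d) ≤ p.B * (p.q * p.C) :=
        mul_le_mul_of_nonneg_left hwd hBr.le
      have h4 : (p.q : ℝ) * p.C ≤ p.B * (p.q * p.C) := by nlinarith
      linarith
    have h5 : (8 * 10 ^ 5 * p.k : ℝ) ≤ p.c ^ 2 * p.B * p.q * p.C := by
      have h6 : (16 * 10 ^ 5 : ℝ) ≤ p.c ^ 2 := by nlinarith
      have h7 : 0 ≤ (p.B : ℝ) * (p.q * p.C) := by positivity
      calc (8 * 10 ^ 5 * p.k : ℝ) ≤ 8 * 10 ^ 5 * (2 * p.B * (p.q * p.C)) := by linarith
        _ = 16 * 10 ^ 5 * (p.B * (p.q * p.C)) := by ring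
        _ ≤ p.c ^ 2 * (p.B * (p.q * p.C)) := mul_le_mul_of_nonneg_right h6 h7
        _ = _ := by ring
    exact_mod_cast h5
  calc Y.card * Z.card * p.k ≤ 8 * (10 ^ 5 * p.B * p.q * eo (GG p H v T φ) Y Z) * p.k :=
        Nat.mul_le_mul_right _ h11
    _ = (8 * 10 ^ 5 * p.k) * (p.B * p.q * eo (GG p H v T φ) Y Z) := by ring
    _ ≤ (p.c ^ 2 * p.B * p.q * p.C) * (p.B * p.q * eo (GG p H v T φ) Y Z) :=
        Nat.mul_le_mul_right _ h12
    _ = _ := by ring

theorem k_pos (p : Par) : 0 < p.k := by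
  unfold Par.k
  have h1 := C_two p
  have h2 := q_pos p
  have : 0 < p.q * (p.C - 1) := Nat.mul_pos h2 (by omega)
  omega

end GraphC

/-- sections 6 and 11 -/
theorem Graph : Graph_stmt := by
  intro p P O A V _ _ _ _ _ _ _ _ _ H v T MM φ hA h2 hT hH hP hcore E1 hE1 hE2
  have hb : ∀ j, Bald p H (φ j) := fun j => (hP.one j).bal
  refine ⟨XT A H × Fin p.C, inferInstance, inferInstance, GG p H v T φ, MG p H v φ MM, ?_⟩
  have hstab := stab_GG (v := v) (φ := φ) (T := T) (MM := MM) hcore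
  have halpha : ∀ U : Finset (XT A H × Fin p.C), IndT (GG p H v T φ) U → U.card ≤ p.k := by
    intro U hU
    obtain ⟨M, hM, h⟩ := hstab U hU
    have : (3 * p.K + 3 + p.c ^ 4) * U.card ≤ (3 * p.K + 3 + p.c ^ 4) * p.k := by omega
    exact Nat.le_of_mul_le_mul_left this (by omega)
  refine ⟨card_GV hA, reg_GG hA hT hb, tri_GG h2 hH.om hT, card_MG hA hT.card_MM, ?_, hstab,
    mix_GG hA hH.h6 hE1 hE2, sat_of_alpha _ (k_pos p) halpha⟩
  intro M hM
  unfold MG at hM
  rw [Finset.mem_image] at hM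
  obtain ⟨⟨⟨z, c0⟩, M0⟩, ht, rfl⟩ := hM
  simp only [Finset.mem_product, Finset.mem_filter, Finset.mem_univ, true_and, and_true] at ht
  rw [card_ofSlices (fun j => model_sub j)]
  exact card_model hA ht.1 (hb c0) (hT.card_M M0 ht.2)

end Pool.Agent.helper41.TGE
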