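import Pool.Agent.helper41.TGE.Slice
import Pool.Agent.helper41.TGE.A2

set_option linter.all false
set_option autoImplicit false

/-!
# Accounting (MP_ce98d8_co, 9.3 - 9.6)
-/

namespace Pool.Agent.helper41.TGE

open Finset Classical
open Pool.Agent.helper24.TG
open Pool.Agent.helper11.Tight (nb eo mem_nb)

section Acc

variable {P O A V : Type} [Fintype P] [DecidableEq P] [Fintype O] [DecidableEq O]
  [Fintype A] [DecidableEq A] [AddCommGroup A] [Fintype V] [DecidableEq V]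
variable {p : Par} {H : Host P O p.q} {v : O → A} {T : SimpleGraph V}

/-- the points of one slice by labels -/
theorem slice_split (φ : P → V) (S0 : Finset (P × A)) :
    (S0.card : ℝ) = (S0 ∩ labS A φ (UU p φ S0)).card +
      (S0.filter (fun x => φ x.1 ∈ VV p φ S0)).card := by
  rw [← Nat.cast_add]
  congr 1
  have h1 : S0 ∩ labS A φ (UU p φ S0) = S0.filter (fun x => φ x.1 ∈ UU p φ S0) := by
    ext x; simp
  have h2 : S0.filter (fun x => φ x.1 ∈ VV p φ S0) = S0.filter (fun x => ¬ φ x.1 ∈ UU p φ S0) := by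
    ext x
    simp only [Finset.mem_filter, mem_VV, mem_UU, not_lt]
    constructor
    · rintro ⟨h, h', h''⟩
      exact ⟨h, h''⟩
    · rintro ⟨h, h'⟩
      refine ⟨h, ?_, h'⟩
      apply Finset.card_pos.2
      exact ⟨x, by simp [h]⟩
  rw [h1, h2, Finset.card_filter_add_card_filter_not]

theorem card_XA_lab' (hA : Fintype.card A = p.B) {φ : P → V} (hb : Bald p H φ) (U : Finset V) :
    ((XA A H ∩ labS A φ U).card : ℝ) = p.B * (p.w * U.card) := by
  rw [card_XA_lab, hA, card_tyS hb]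
  push_cast
  ring

theorem slice_U (hA : Fintype.card A = p.B) {φ : Fin p.C → P → V}
    {S : Fin p.C → Finset (P × A)} {c0 : Fin p.C} (hb : Bald p H (φ c0)) (hsub : S c0 ⊆ XA A H)
    (U : Finset V) :
    ((S c0 ∩ labS A (φ c0) U).card : ℝ) = p.B * (p.w * U.card) - RU p H φ S c0 U := by
  unfold RU
  have h1 := Finset.card_sdiff_add_card_inter (XA A H ∩ labS A (φ c0) U) (S c0)
  have h2 : (XA A H ∩ labS A (φ c0) U) ∩ S c0 = S c0 ∩ labS A (φ c0) U := by
    ext x
    simp only [Finset.mem_inter, mem_labS]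
    constructor
    · rintro ⟨⟨h, h'⟩, h''⟩
      exact ⟨h'', h'⟩
    · rintro ⟨h, h'⟩
      exact ⟨⟨hsub h, h'⟩, h⟩
  rw [h2] at h1
  rw [← card_XA_lab' hA hb U, ← h1]
  push_cast
  ring

/-- the light part -/
noncomputable def light (p : Par) (φ : P → V) (S0 : Finset (P × A)) : ℝ :=
  ((S0.filter (fun x => φ x.1 ∈ VV p φ S0)).card : ℝ)

theorem total_eq {S : Fin p.C → Finset (P × A)} {c0 : Fin p.C} :
    ((∑ j, (S j).card : ℕ) : ℝ) = (S c0).card + Other p S c0 := by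
  unfold Other
  rw [← Finset.add_sum_erase _ _ (Finset.mem_univ c0)]
  push_cast
  rfl

/-- 9.3: the deficit -/
theorem deficit (hA : Fintype.card A = p.B) {φ : Fin p.C → P → V}
    {S : Fin p.C → Finset (P × A)} {c0 : Fin p.C} (hb : Bald p H (φ c0))
    (hsub : S c0 ⊆ XA A H) :
    (p.k : ℝ) - ((∑ j, (S j).card : ℕ) : ℝ) = p.q * (p.C - 1) - p.w * p.d +
      p.B * p.w * (p.d - (UU p (φ c0) (S c0)).card) + RU p H φ S c0 (UU p (φ c0) (S c0)) -
      Other p S c0 - light p (φ c0) (S c0) := by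
  rw [total_eq (c0 := c0), slice_split (p := p) (φ c0) (S c0), slice_U hA hb hsub, k_cast]
  unfold light
  ring

/-- 9.5 -/
theorem diff_le (hA : Fintype.card A = p.B) {φ : Fin p.C → P → V}
    {S : Fin p.C → Finset (P × A)} {c0 : Fin p.C} (hb : Bald p H (φ c0))
    (hsub : ∀ j, S j ⊆ XA A H) (M : Finset V) (z : P × A) :
    ((∑ j, (S j \ model p H v φ z c0 M j).card : ℕ) : ℝ) ≤
      p.B * (p.w * (UU p (φ c0) (S c0) \ M).card) + light p (φ c0) (S c0) +
        QM p H v φ S c0 M z + EE p H v S c0 z := by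
  rw [← Finset.add_sum_erase _ _ (Finset.mem_univ c0)]
  push_cast
  have h1 : ∑ j ∈ Finset.univ.erase c0, ((S j \ model p H v φ z c0 M j).card : ℝ) =
      EE p H v S c0 z := by
    unfold EE
    apply Finset.sum_congr rfl
    intro j hj
    congr 2
    unfold model
    rw [if_neg (Finset.ne_of_mem_erase hj)]
    ext x
    simp only [Finset.mem_sdiff, Finset.mem_inter, not_and]
    constructor
    · rintro ⟨h, h'⟩
      exact ⟨h, fun h'' => h' h'' (hsub j h)⟩
    · rintro ⟨h, h'⟩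
      exact ⟨h, fun h'' => absurd h'' h'⟩
  rw [h1]
  have h2 : S c0 \ model p H v φ z c0 M c0 ⊆
      (S c0 ∩ labS A (φ c0) M ∩ Ball H v z) ∪
      ((XA A H ∩ labS A (φ c0) (UU p (φ c0) (S c0) \ M)) ∪
        (S c0).filter (fun x => (φ c0) x.1 ∈ VV p (φ c0) (S c0))) := by
    intro x hx
    unfold model at hx
    rw [if_pos rfl] at hx
    simp only [Finset.mem_sdiff, Finset.mem_inter, not_and, not_not, mem_labS] at hx
    obtain ⟨hx, hx'⟩ := hx
    simp only [Finset.mem_union, Finset.mem_inter, mem_labS, Finset.mem_sdiff, Finset.mem_filter]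
    by_cases hM : (φ c0) x.1 ∈ M
    · left
      exact ⟨⟨hx, hM⟩, hx' ⟨hsub c0 hx, hM⟩⟩
    · right
      by_cases hU : (φ c0) x.1 ∈ UU p (φ c0) (S c0)
      · left
        exact ⟨hsub c0 hx, hU, hM⟩
      · right
        refine ⟨hx, ?_⟩
        rw [mem_UU, not_lt] at hU
        rw [mem_VV]
        refine ⟨?_, hU⟩
        apply Finset.card_pos.2
        exact ⟨x, by simp [hx]⟩
  have h3 := Finset.card_le_card h2
  have h4 := h3.trans ((Finset.card_union_le _ _).trans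
    (Nat.add_le_add_left (Finset.card_union_le _ _) _))
  have h5 : ((S c0 \ model p H v φ z c0 M c0).card : ℝ) ≤
      (S c0 ∩ labS A (φ c0) M ∩ Ball H v z).card +
      ((XA A H ∩ labS A (φ c0) (UU p (φ c0) (S c0) \ M)).card +
        ((S c0).filter (fun x => (φ c0) x.1 ∈ VV p (φ c0) (S c0))).card) := by
    exact_mod_cast h4
  rw [card_XA_lab' hA hb] at h5
  unfold light QM
  linarith

/-- 9.6: (A2) gives the stability inequality -/
theorem stab_of_A2 {MM : Finset (Finset V)} (hA : Fintype.card A = p.B) (hT : TSp p T MM)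
    {φ : Fin p.C → P → V} {S : Fin p.C → Finset (P × A)} (hS : Ind p H v T φ S) {c0 : Fin p.C}
    (hb : Bald p H (φ c0)) (h5 : P5 p H v T (φ c0)) {M : Finset V}
    (hUM : (UU p (φ c0) (S c0) \ M).card ≤ p.K * (p.d - (UU p (φ c0) (S c0)).card))
    {z : P × A} (hA2 : A2 p H v φ S c0 (UU p (φ c0) (S c0)) M z) :
    (∑ j, (S j \ model p H v φ z c0 M j).card) + (3 * p.K + 3 + p.c ^ 4) * ∑ j, (S j).card ≤
      (3 * p.K + 3 + p.c ^ 4) * p.k := by
  have hU : (UU p (φ c0) (S c0)).card ≤ p.d := alphaT hT (UU_ind hb (hS.sub c0) (hS.own c0))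
  have hl : light p (φ c0) (S c0) ≤ 4 / p.c ^ 5 * (p.B * p.w * (p.d - (UU p (φ c0) (S c0)).card)) :=
    light_le hT hb h5 (hS.sub c0) (hS.own c0)
  have hdef := deficit (φ := φ) hA hb (hS.sub c0)
  have hdiff := diff_le (v := v) (φ := φ) hA hb hS.sub M z
  unfold A2 at hA2
  have hUM' : (((UU p (φ c0) (S c0) \ M).card : ℕ) : ℝ) ≤
      p.K * (p.d - (UU p (φ c0) (S c0)).card) := by
    have : (((UU p (φ c0) (S c0) \ M).card : ℕ) : ℝ) ≤
      ((p.K * (p.d - (UU p (φ c0) (S c0)).card) : ℕ) : ℝ) := by exact_mod_cast hUM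
    rw [Nat.cast_mul, Nat.cast_sub hU] at this
    exact this
  have hdel : (0 : ℝ) ≤ p.d - (UU p (φ c0) (S c0)).card := by
    have : (((UU p (φ c0) (S c0)).card : ℕ) : ℝ) ≤ p.d := by exact_mod_cast hU
    linarith
  have hQ : 0 ≤ QM p H v φ S c0 M z := Nat.cast_nonneg _
  have hE : 0 ≤ EE p H v S c0 z := Finset.sum_nonneg (fun _ _ => Nat.cast_nonneg _)
  rw [← @Nat.cast_le ℝ]
  push_cast
  push_cast at hdef hdiff
  have hc := rc p
  have hc0 := rc0 p
  have hB := rB p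
  have hw := rw' p
  have hK := rK p
  have hBw : p.B * (p.w * (((UU p (φ c0) (S c0) \ M).card : ℕ) : ℝ)) ≤
      p.K * (p.B * p.w * (p.d - (UU p (φ c0) (S c0)).card)) := by
    have := mul_le_mul_of_nonneg_left hUM' (mul_nonneg hB.le hw.le)
    linarith
  have hX : 0 ≤ p.B * p.w * ((p.d : ℝ) - (UU p (φ c0) (S c0)).card) := by positivity
  have h4c : 4 / (p.c : ℝ) ^ 5 ≤ 1 / 4 := by
    rw [div_le_div_iff₀ (by positivity) (by norm_num)]
    have : (p.c : ℝ) ≤ p.c ^ 5 := by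
      calc (p.c : ℝ) = p.c ^ 1 := by ring
        _ ≤ p.c ^ 5 := pow_le_pow_right₀ (rc1 p) (by norm_num)
    linarith
  have hl' : light p (φ c0) (S c0) ≤ 1 / 4 * (p.B * p.w * (p.d - (UU p (φ c0) (S c0)).card)) :=
    hl.trans (mul_le_mul_of_nonneg_right h4c hX)
  set X : ℝ := p.B * p.w * ((p.d : ℝ) - (UU p (φ c0) (S c0)).card) with hXd
  set Dl : ℝ := (p.k : ℝ) - ∑ j, ((S j).card : ℝ) with hDl
  have hD : 5 / 12 * X + 1 / (p.c : ℝ) ^ 4 * (QM p H v φ S c0 M z + EE p H v S c0 z) ≤ Dl := by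
    rw [hdef]
    linarith
  set Y : ℝ := QM p H v φ S c0 M z + EE p H v S c0 z with hY
  have hY0 : 0 ≤ Y := add_nonneg hQ hE
  have hc4 : (0 : ℝ) < p.c ^ 4 := by positivity
  have hD1 : p.c ^ 4 * (1 / (p.c : ℝ) ^ 4 * Y) = Y := by
    field_simp
  have hD2 := mul_le_mul_of_nonneg_left hD hc4.le
  have hD3 : (3 * (p.K : ℝ) + 3) * (5 / 12 * X + 1 / (p.c : ℝ) ^ 4 * Y) ≤
      (3 * (p.K : ℝ) + 3) * Dl := mul_le_mul_of_nonneg_left hD (by positivity)
  have hpos : 0 ≤ (3 * (p.K : ℝ) + 3) * (1 / (p.c : ℝ) ^ 4 * Y) := by positivity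
  have hpos2 : 0 ≤ (p.c : ℝ) ^ 4 * (5 / 12 * X) := by positivity
  have hKX : 0 ≤ (p.K : ℝ) * X := by positivity
  have hfin : ∑ j, ((S j \ model p H v φ z c0 M j).card : ℝ) ≤
      (3 * (p.K : ℝ) + 3 + p.c ^ 4) * Dl := by
    refine hdiff.trans ?_
    nlinarith
  have : (3 * (p.K : ℝ) + 3 + p.c ^ 4) * Dl = (3 * (p.K : ℝ) + 3 + p.c ^ 4) * p.k -
      (3 * (p.K : ℝ) + 3 + p.c ^ 4) * ∑ j, ((S j).card : ℝ) := by rw [hDl]; ring
  linarith

end Acc

end Pool.Agent.helper41.TGE
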