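import Pool.Agent.helper41.TGE.Tool

set_option linter.all false
set_option autoImplicit false

/-!
# The cases XL and L (MP_ce98d8_co, section 10)
-/

namespace Pool.Agent.helper41.TGE

open Finset Classical
open Pool.Agent.helper24.TG
open Pool.Agent.helper11.Tight (nb eo mem_nb)

section CaseL

variable {P O A V : Type} [Fintype P] [DecidableEq P] [Fintype O] [DecidableEq O]
  [Fintype A] [DecidableEq A] [AddCommGroup A] [Fintype V] [DecidableEq V]
variable {p : Par} {H : Host P O p.q} {v : O → A} {T : SimpleGraph V}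
  {MM : Finset (Finset V)} {φ : Fin p.C → P → V} {S : Fin p.C → Finset (P × A)}
  {c0 : Fin p.C} {U M : Finset V}

/-- the other slices are small -/
theorem Other_le (hR : p.c ^ p.x0 * ∑ j ∈ Finset.univ.erase c0, (S j).card ≤ p.k) :
    p.c * (p.K + 1) * Other p S c0 ≤ 2 * p.B * (p.w * p.d) := by
  have h1 : (p.c : ℝ) ^ p.x0 * Other p S c0 ≤ p.k := by
    unfold Other
    exact_mod_cast hR
  have h2 : (p.c : ℝ) * (p.K + 1) ≤ p.c ^ p.x0 := by
    have : (p.K : ℝ) + 1 ≤ p.c ^ p.kT := by exact_mod_cast p.hK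
    unfold Par.x0
    rw [pow_succ, mul_comm]
    exact mul_le_mul_of_nonneg_right this (rc0 p).le
  have h3 := k_le p
  have h4 : 0 ≤ Other p S c0 := Other_nonneg
  calc p.c * (p.K + 1) * Other p S c0 ≤ p.c ^ p.x0 * Other p S c0 :=
        mul_le_mul_of_nonneg_right h2 h4
    _ ≤ p.k := h1
    _ ≤ _ := h3

/-- case XL -/
theorem caseXL (hT : TSp p T MM) (hP : PPr p H v T MM (φ c0)) (hS : Ind p H v T φ S)
    (hR : p.c ^ p.x0 * ∑ j ∈ Finset.univ.erase c0, (S j).card ≤ p.k)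
    (hM : M ∈ MM) (hU : U.card ≤ p.d) (hUM : (U \ M).card ≤ p.K * (p.d - U.card)) {i : Bool}
    (hi : p.q * p.B < 24000 * (p.K + 1) * (ES p S c0 i).card) :
    ∃ z, Proper H z ∧ A2 p H v φ S c0 U M z := by
  have hne : (ES p S c0 i).Nonempty := by
    rw [Finset.nonempty_iff_ne_empty]
    intro h
    rw [h] at hi
    simp at hi
  obtain ⟨z, hz⟩ := hne
  refine ⟨z, proper_of_XA (ES_sub hS i hz), ?_⟩
  apply A2_of_large hT hP.bal hS hM z
  have hKpos : 0 < 24000 * (p.K + 1) := by positivity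
  set t := p.q * p.B / (24000 * (p.K + 1)) with ht
  have ht1 : 24000 * (p.K + 1) * t ≤ p.q * p.B := Nat.mul_div_le _ _
  have ht2 : p.q * p.B < 24000 * (p.K + 1) * (t + 1) := by
    have := Nat.lt_mul_div_succ (p.q * p.B) hKpos
    simpa using this
  have htle : t ≤ (ES p S c0 i).card := by
    have : 24000 * (p.K + 1) * t < 24000 * (p.K + 1) * (ES p S c0 i).card :=
      lt_of_le_of_lt ht1 hi
    exact (Nat.lt_of_mul_lt_mul_left this).le
  obtain ⟨Es, hEs, hcard⟩ := Finset.exists_subset_card_eq htle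
  have htool := tool (U := U) hT hP hS hM hU hUM i hEs (by
    rw [hcard]; exact_mod_cast ht1)
  rw [hcard] at htool
  have hc := rc p
  have hc0 := rc0 p
  have hc1 := rc1 p
  have hB := rB p
  have hw := rw' p
  have hd := rd p
  have hK := rK p
  have hq := rq p
  have hq1 : (1 : ℝ) ≤ p.q := by exact_mod_cast q_pos p
  have hrho := rho_pos p
  have hB15 := B_ge15 p
  have hc15 : (10 : ℝ) ^ 6 ≤ p.c ^ 15 := by
    refine hc.trans ?_
    calc (p.c : ℝ) = p.c ^ 1 := by ring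
      _ ≤ p.c ^ 15 := pow_le_pow_right₀ hc1 (by norm_num)
  have hBK : (10 : ℝ) ^ 6 * (p.K + 1) ≤ p.B :=
    (mul_le_mul_of_nonneg_right hc15 (by positivity)).trans hB15
  have ht2' : (p.q : ℝ) * p.B < 24000 * (p.K + 1) * (t + 1) := by exact_mod_cast ht2
  have ht3 : (p.q : ℝ) * p.B ≤ 48000 * (p.K + 1) * t := by
    have h1 : (p.B : ℝ) ≤ p.q * p.B := by nlinarith
    have h2 : (10 : ℝ) ^ 6 * (p.K + 1) ≤ p.q * p.B := hBK.trans h1
    nlinarith
  have ht4 : p.B * (p.w * p.d) ≤ 96000 * ((p.K + 1) *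
      (RU p H φ S c0 U + 1 / 3 * (p.B * p.w * (p.d - U.card)))) := by
    have h1 := mul_le_mul_of_nonneg_left ht3 hrho.le
    have h2 : p.rho * (p.q * p.B) = p.B * (p.w * p.d) := by
      rw [← mul_assoc, rho_q]; ring
    rw [h2] at h1
    have h3 := mul_le_mul_of_nonneg_left htool (show (0 : ℝ) ≤ 96000 * (p.K + 1) by positivity)
    calc p.B * (p.w * p.d) ≤ p.rho * (48000 * (p.K + 1) * t) := h1
      _ = 96000 * (p.K + 1) * (1 / 2 * (p.rho * t)) := by ring
      _ ≤ _ := h3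
      _ = _ := by ring
  have hO := Other_le hR
  have hO0 : 0 ≤ Other p S c0 := Other_nonneg
  have hwd : 0 ≤ (p.w : ℝ) * p.d := by positivity
  have h5 : (10 : ℝ) ^ 6 * ((p.K + 1) * Other p S c0) ≤ 2 * p.B * (p.w * p.d) := by
    refine le_trans ?_ hO
    have : 0 ≤ ((p.K : ℝ) + 1) * Other p S c0 := by positivity
    calc (10 : ℝ) ^ 6 * ((p.K + 1) * Other p S c0) ≤ p.c * ((p.K + 1) * Other p S c0) :=
          mul_le_mul_of_nonneg_right hc this
      _ = _ := by ring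
  have h6 : (10 : ℝ) ^ 6 * ((p.K + 1) * (p.w * p.d)) ≤ p.B * (p.w * p.d) := by
    have := mul_le_mul_of_nonneg_right hBK hwd
    linarith
  have h7 : 0 ≤ p.B * (p.w * p.d : ℝ) := by positivity
  have h8 : ((p.K : ℝ) + 1) * (2 * Other p S c0 + 2 * (p.w * p.d)) ≤ (p.K + 1) *
      (RU p H φ S c0 U + 1 / 3 * (p.B * p.w * (p.d - U.card))) := by
    nlinarith
  exact le_of_mul_le_mul_left h8 (by positivity)

/-- one polarity -/
theorem sum_pol (hS : Ind p H v T φ S) (h2 : Q2 p H v T φ) (i : Bool)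
    (hi : (ES p S c0 i).card ≤ p.q * p.B) :
    ∑ j ∈ Finset.univ.filter (fun j : Fin p.C => j ≠ c0 ∧ (p.hf j != p.hf c0) = i), (S j).card ≤
      (Finset.univ.filter (fun j : Fin p.C => j ≠ c0 ∧ (p.hf j != p.hf c0) = i)).card *
        (p.c ^ 2 * p.q) + p.B ^ 2 * (p.q * p.B) := by
  have hq2 := h2 (ES p S c0 i) (ES_sub hS i) hi
  set J := Finset.univ.filter (fun j : Fin p.C => j ≠ c0 ∧ (p.hf j != p.hf c0) = i) with hJ
  set X := Finset.univ.filter (fun j : Fin p.C => ∃ S', S' ⊆ ES p S c0 i ∧ FInd H v T (φ j) S' ∧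
      p.c ^ 2 * p.q ≤ S'.card) with hX
  have hsub : ∀ j ∈ J, S j ⊆ ES p S c0 i := by
    intro j hj x hx
    rw [hJ, Finset.mem_filter] at hj
    rw [mem_ES]
    exact ⟨j, hj.2, hx⟩
  rw [← Finset.sum_filter_add_sum_filter_not J (fun j => j ∈ X)]
  have h3 : ∑ j ∈ J.filter (fun j => j ∈ X), (S j).card ≤ p.B ^ 2 * (p.q * p.B) := by
    calc ∑ j ∈ J.filter (fun j => j ∈ X), (S j).card
        ≤ ∑ j ∈ J.filter (fun j => j ∈ X), p.q * p.B := by
          apply Finset.sum_le_sum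
          intro j hj
          exact (Finset.card_le_card (hsub j (Finset.mem_filter.1 hj).1)).trans hi
      _ = (J.filter (fun j => j ∈ X)).card * (p.q * p.B) := by simp
      _ ≤ X.card * (p.q * p.B) := by
          apply Nat.mul_le_mul_right
          apply Finset.card_le_card
          intro j hj
          exact (Finset.mem_filter.1 hj).2
      _ ≤ _ := Nat.mul_le_mul_right _ hq2
  have h4 : ∑ j ∈ J.filter (fun j => ¬ j ∈ X), (S j).card ≤ J.card * (p.c ^ 2 * p.q) := by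
    calc ∑ j ∈ J.filter (fun j => ¬ j ∈ X), (S j).card
        ≤ ∑ j ∈ J.filter (fun j => ¬ j ∈ X), p.c ^ 2 * p.q := by
          apply Finset.sum_le_sum
          intro j hj
          rw [Finset.mem_filter] at hj
          by_contra hlt
          push_neg at hlt
          apply hj.2
          rw [hX, Finset.mem_filter]
          exact ⟨Finset.mem_univ _, S j, hsub j hj.1, hS.own j, hlt.le⟩
      _ = (J.filter (fun j => ¬ j ∈ X)).card * (p.c ^ 2 * p.q) := by simp
      _ ≤ _ := Nat.mul_le_mul_right _ (Finset.card_le_card (Finset.filter_subset _ _))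
  omega

theorem Other_split : Other p S c0 =
    ((∑ j ∈ Finset.univ.filter (fun j : Fin p.C => j ≠ c0 ∧ (p.hf j != p.hf c0) = false),
      (S j).card : ℕ) : ℝ) +
    ((∑ j ∈ Finset.univ.filter (fun j : Fin p.C => j ≠ c0 ∧ (p.hf j != p.hf c0) = true),
      (S j).card : ℕ) : ℝ) := by
  unfold Other
  rw [← Nat.cast_add]
  rw [← Nat.cast_sum]
  congr 1
  rw [← Finset.sum_filter_add_sum_filter_not (Finset.univ.erase c0)
    (fun j => (p.hf j != p.hf c0) = false)]
  congr 1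
  · apply Finset.sum_congr _ (fun _ _ => rfl)
    ext j; simp
  · apply Finset.sum_congr _ (fun _ _ => rfl)
    ext j; simp

/-- case L -/
theorem caseL (hT : TSp p T MM) (hP : PPr p H v T MM (φ c0)) (hS : Ind p H v T φ S)
    (h2 : Q2 p H v T φ)
    (hM : M ∈ MM) (hU : U.card ≤ p.d) (hUM : (U \ M).card ≤ p.K * (p.d - U.card))
    (hs : ∀ i, 24000 * (p.K + 1) * (ES p S c0 i).card ≤ p.q * p.B) {i : Bool}
    (hi : p.c ^ 6 * p.q < 2 * (ES p S c0 i).card) :
    ∃ z, Proper H z ∧ A2 p H v φ S c0 U M z := by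
  have hne : (ES p S c0 i).Nonempty := by
    rw [Finset.nonempty_iff_ne_empty]
    intro h
    rw [h] at hi
    simp at hi
  obtain ⟨z, hz⟩ := hne
  refine ⟨z, proper_of_XA (ES_sub hS i hz), ?_⟩
  apply A2_of_large hT hP.bal hS hM z
  have htool := tool (U := U) (c0 := c0) hT hP hS hM hU hUM i (Finset.Subset.refl _)
    (by exact_mod_cast hs i)
  have hc := rc p
  have hc0 := rc0 p
  have hc1 := rc1 p
  have hB := rB p
  have hB1 : (1 : ℝ) ≤ p.B := by exact_mod_cast B_pos p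
  have hw := rw' p
  have hd := rd p
  have hK := rK p
  have hq := rq p
  have hrho := rho_pos p
  have hqB : ∀ i, (ES p S c0 i).card ≤ p.q * p.B := by
    intro i
    refine le_trans ?_ (hs i)
    have : 1 ≤ 24000 * (p.K + 1) := by omega
    exact Nat.le_mul_of_pos_left _ this
  have h5 : ∀ i : Bool,
      ((∑ j ∈ Finset.univ.filter (fun j : Fin p.C => j ≠ c0 ∧ (p.hf j != p.hf c0) = i),
        (S j).card : ℕ) : ℝ) ≤ p.C * (p.c ^ 2 * p.q) + p.B ^ 2 * (p.q * p.B) := by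
    intro i
    have h1 := sum_pol (c0 := c0) hS h2 i (hqB i)
    have h3 : (Finset.univ.filter (fun j : Fin p.C => j ≠ c0 ∧ (p.hf j != p.hf c0) = i)).card ≤
        p.C := by
      refine (Finset.card_le_univ _).trans ?_
      simp
    have h4 := h1.trans (Nat.add_le_add_right (Nat.mul_le_mul_right (p.c ^ 2 * p.q) h3) _)
    exact_mod_cast h4
  have hO : Other p S c0 ≤ 2 * (p.C * (p.c ^ 2 * p.q) + p.B ^ 2 * (p.q * p.B)) := by
    rw [Other_split]
    have h1 := h5 false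
    have h3 := h5 true
    linarith
  have hwd : 0 < (p.w : ℝ) * p.d := by positivity
  -- sizes
  have e1 : (p.C : ℝ) * (p.c ^ 2 * p.q) ≤ 2 * p.c ^ 5 * (p.w * p.d) := by
    have h1 := qC_le p
    have h3 := mul_le_mul_of_nonneg_left h1 (show (0 : ℝ) ≤ p.c ^ 2 by positivity)
    have e0 : (p.C : ℝ) * ((p.c : ℝ) ^ 2 * (p.q : ℝ)) = (p.c : ℝ) ^ 2 * ((p.q : ℝ) * p.C) := by ring
    have e0' : (p.c : ℝ) ^ 2 * (2 * (p.c : ℝ) ^ 3 * ((p.w : ℝ) * p.d)) =
        2 * (p.c : ℝ) ^ 5 * ((p.w : ℝ) * p.d) := by ring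
    rw [e0, ← e0']
    exact h3
  have e2 : (p.B : ℝ) ^ 2 * (p.q * p.B) ≤ p.w * p.d := by
    have hr := rho_ge p
    rw [← rho_q]
    have h1 : (p.B : ℝ) ^ 3 ≤ p.rho := by
      refine le_trans ?_ hr
      have h1 : (1 : ℝ) ≤ p.c * p.B := by nlinarith
      have h2 : (p.B : ℝ) ^ 3 ≤ (p.c * p.B) ^ 3 := by
        apply pow_le_pow_left₀ hB.le
        nlinarith
      have h2' : ((p.c : ℝ) * p.B) ^ 3 ≤ (p.c * p.B) ^ 100 := pow_le_pow_right₀ h1 (by norm_num)
      have h2'' := h2.trans h2'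
      have h3 : 0 ≤ ((p.c : ℝ) * p.B) ^ 100 := pow_nonneg (mul_nonneg hc0.le hB.le) _
      generalize ((p.c : ℝ) * p.B) ^ 100 = Z at h2'' h3 ⊢
      nlinarith
    calc (p.B : ℝ) ^ 2 * (p.q * p.B) = p.B ^ 3 * p.q := by ring
      _ ≤ p.rho * p.q := mul_le_mul_of_nonneg_right h1 hq.le
  have e3 : (p.c : ℝ) ^ 6 * (p.w * p.d) ≤ 2 * (p.rho * (ES p S c0 i).card) := by
    have h1 : (p.c : ℝ) ^ 6 * p.q ≤ 2 * (ES p S c0 i).card := by exact_mod_cast hi.le
    have h3 := mul_le_mul_of_nonneg_left h1 hrho.le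
    calc (p.c : ℝ) ^ 6 * (p.w * p.d) = p.rho * (p.c ^ 6 * p.q) := by rw [← rho_q]; ring
      _ ≤ p.rho * (2 * (ES p S c0 i).card) := h3
      _ = _ := by ring
  have e4 : (10 : ℝ) ^ 6 * (p.c ^ 5 * (p.w * p.d)) ≤ p.c ^ 6 * (p.w * p.d) := by
    have := mul_le_mul_of_nonneg_right hc (show (0 : ℝ) ≤ p.c ^ 5 * (p.w * p.d) by positivity)
    calc (10 : ℝ) ^ 6 * (p.c ^ 5 * (p.w * p.d)) ≤ p.c * (p.c ^ 5 * (p.w * p.d)) := this
      _ = _ := by ring
  have e5 : (p.w : ℝ) * p.d ≤ p.c ^ 5 * (p.w * p.d) := by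
    have : (1 : ℝ) ≤ p.c ^ 5 := one_le_pow₀ hc1
    nlinarith
  linarith

end CaseL

end Pool.Agent.helper41.TGE
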