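import Pool.Agent.helper24.TG.Props

set_option linter.all false
set_option autoImplicit false

/-!
# Geometry of the lifted plane: the facts used in the exactness part (MP_ce98d8_co)
-/

namespace Pool.Agent.helper41.TGE

open Finset Classical
open Pool.Agent.helper24.TG
open Pool.Agent.helper11.Tight (nb eo mem_nb)

section Geo

variable {P O A V : Type} [Fintype P] [DecidableEq P] [Fintype O] [DecidableEq O]
  [Fintype A] [DecidableEq A] [AddCommGroup A] [Fintype V] [DecidableEq V] {q : ℕ}
  {H : Host P O q} {v : O → A}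

theorem onL_comm {i : Bool} {x z : P × A} (h : onL H v (NL H i z) x) : onL H v (NL H i x) z := by
  obtain ⟨h1, h2⟩ := h
  simp only [NL] at h1 h2
  have h3 := H.pi_inc i x.1 z.1 h1
  refine ⟨h3, ?_⟩
  have h4 := H.orb_pi i x.1 (H.pi i z.1) h1
  rw [H.pi_pi] at h4
  simp only [NL]
  rw [h4, ← h2, add_comm]

theorem onL_comm_iff {i : Bool} {x z : P × A} : onL H v (NL H i z) x ↔ onL H v (NL H i x) z :=
  ⟨onL_comm, onL_comm⟩

/-- a lifted line through a point is determined by its type -/
theorem line_eq {L L' x : P × A} (h : onL H v L x) (h' : onL H v L' x) (hl : L.1 = L'.1) :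
    L = L' := by
  obtain ⟨h1, h2⟩ := h
  obtain ⟨h1', h2'⟩ := h'
  refine Prod.ext hl ?_
  rw [hl, ← h2'] at h2
  exact add_left_cancel h2

/-- a point of a lifted line is determined by its type -/
theorem point_eq {L x y : P × A} (h : onL H v L x) (h' : onL H v L y) (hl : x.1 = y.1) :
    x = y := by
  obtain ⟨h1, h2⟩ := h
  obtain ⟨h1', h2'⟩ := h'
  refine Prod.ext hl ?_
  rw [hl, ← h2'] at h2
  exact add_right_cancel h2

theorem exists_line {x : P × A} {l : P} (h : H.inc x.1 l) : ∃ a : A, onL H v (l, a) x :=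
  ⟨v (H.orb x.1 l) - x.2, h, by simp⟩

theorem exists_point {L : P × A} {t : P} (h : H.inc t L.1) : ∃ a : A, onL H v L (t, a) :=
  ⟨v (H.orb t L.1) - L.2, h, by simp⟩

theorem col_symm {x y : P × A} (h : col H v x y) : col H v y x := by
  obtain ⟨h1, L, h2, h3⟩ := h
  exact ⟨fun e => h1 e.symm, L, h3, h2⟩

/-- two lifted lines with two common points of different types are equal -/
theorem line_uniq {L L' x y : P × A} (hxy : x.1 ≠ y.1) (h1 : onL H v L x) (h2 : onL H v L y)
    (h3 : onL H v L' x) (h4 : onL H v L' y) : L = L' :=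
  line_eq h1 h3 (H.uniq x.1 y.1 L.1 L'.1 hxy h1.1 h2.1 h3.1 h4.1)

/-- a point is collinear with at most one point of every type -/
theorem col_uniq {x y y' : P × A} (h : col H v x y) (h' : col H v x y') (e : y.1 = y'.1) :
    y = y' := by
  obtain ⟨h1, L, h2, h3⟩ := h
  obtain ⟨h1', L', h2', h3'⟩ := h'
  have hl : L.1 = L'.1 := H.uniq x.1 y.1 L.1 L'.1 h1 h2.1 h3.1 h2'.1 (e ▸ h3'.1)
  have hL := line_eq h2 h2' hl
  subst hL
  exact point_eq h3 h3' e

theorem col_exists (v : O → A) (x : P × A) {t : P} (h : x.1 ≠ t) : ∃ a : A, col H v x (t, a) := by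
  obtain ⟨l, h1, h2⟩ := H.join x.1 t h
  obtain ⟨a, ha⟩ := exists_line (v := v) h1
  obtain ⟨b, hb⟩ := exists_point (v := v) (L := (l, a)) (t := t) h2
  exact ⟨b, h, (l, a), ha, hb⟩

theorem mem_Ball {z y : P × A} : y ∈ Ball H v z ↔ y = z ∨ col H v z y := by
  simp [Ball]

theorem ball_uniq {z y y' : P × A} (h : y ∈ Ball H v z) (h' : y' ∈ Ball H v z) (e : y.1 = y'.1) :
    y = y' := by
  rw [mem_Ball] at h h'
  rcases h with h | h
  · subst h
    rcases h' with h' | h'
    · exact h'.symm
    · exact absurd e h'.1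
  · rcases h' with h' | h'
    · subst h'
      exact absurd e.symm h.1
    · exact col_uniq h h' e

theorem ball_exists (v : O → A) (z : P × A) (t : P) : ∃ y ∈ Ball H v z, y.1 = t := by
  by_cases h : z.1 = t
  · exact ⟨z, by simp [mem_Ball], h⟩
  · obtain ⟨a, ha⟩ := col_exists (H := H) v z h
    exact ⟨(t, a), by simp [mem_Ball, ha], rfl⟩

theorem ball_injOn (z : P × A) : Set.InjOn Prod.fst (Ball H v z : Set (P × A)) := by
  intro y hy y' hy' e
  exact ball_uniq hy hy' e

theorem line_sub_ball {L z x : P × A} (h : onL H v L z) (h' : onL H v L x) : x ∈ Ball H v z := by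
  rw [mem_Ball]
  by_cases e : z.1 = x.1
  · left; exact (point_eq h h' e).symm
  · right; exact ⟨e, L, h, h'⟩

/-- the types with label in `Z` -/
noncomputable def tyS (H : Host P O q) (φ : P → V) (Z : Finset V) : Finset P :=
  (PA H).filter (fun t => φ t ∈ Z)

@[simp] theorem mem_tyS {φ : P → V} {Z : Finset V} {t : P} :
    t ∈ tyS H φ Z ↔ ¬ H.inc t H.linf ∧ φ t ∈ Z := by simp [tyS]

/-- the ball is a transversal of the types -/
theorem card_ball_lab (v : O → A) (z : P × A) (φ : P → V) (Z : Finset V) :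
    (Ball H v z ∩ (XA A H ∩ labS A φ Z)).card = (tyS H φ Z).card := by
  rw [← Finset.card_image_of_injOn (s := Ball H v z ∩ (XA A H ∩ labS A φ Z)) (f := Prod.fst)]
  · congr 1
    ext t
    simp only [Finset.mem_image, Finset.mem_inter, mem_XA, mem_labS, mem_tyS]
    constructor
    · rintro ⟨y, ⟨h1, h2, h3⟩, rfl⟩
      exact ⟨h2, h3⟩
    · rintro ⟨h1, h2⟩
      obtain ⟨y, hy, rfl⟩ := ball_exists (H := H) v z t
      exact ⟨y, ⟨hy, h1, h2⟩, rfl⟩
  · exact (ball_injOn z).mono (by intro y hy; simp at hy; exact hy.1)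

theorem card_XA_lab (φ : P → V) (Z : Finset V) :
    (XA A H ∩ labS A φ Z).card = Fintype.card A * (tyS H φ Z).card := by
  have : XA A H ∩ labS A φ Z = tyS H φ Z ×ˢ (Finset.univ : Finset A) := by
    ext y
    simp
  rw [this, Finset.card_product, Finset.card_univ, mul_comm]

/-- the set of types of a set of points in which every type occurs at most once -/
theorem card_lin (v : O → A) (L : P × A) : (lin H v L).card = q + 1 := by
  rw [← H.card_line L.1]
  rw [← Finset.card_image_of_injOn (s := lin H v L) (f := Prod.fst)]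
  · congr 1
    ext t
    simp only [Finset.mem_image, mem_lin, Finset.mem_filter, Finset.mem_univ, true_and]
    constructor
    · rintro ⟨y, h, rfl⟩
      exact h.1
    · intro h
      obtain ⟨a, ha⟩ := exists_point (v := v) h
      exact ⟨(t, a), ha, rfl⟩
  · intro y hy y' hy' e
    simp only [Finset.mem_coe, mem_lin] at hy hy'
    exact point_eq hy hy' e

theorem lin_injOn (v : O → A) (L : P × A) : Set.InjOn Prod.fst (lin H v L : Set (P × A)) := by
  intro y hy y' hy' e
  simp only [Finset.mem_coe, mem_lin] at hy hy'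
  exact point_eq hy hy' e

/-- affine types on a line -/
theorem card_aff_line {l : P} (hl : l ≠ H.linf) :
    ((PA H).filter (fun t => H.inc t l)).card = q := by
  have h1 := H.card_line l
  obtain ⟨x, hx, hx'⟩ := H.meet l H.linf hl
  have : (Finset.univ.filter (fun t => H.inc t l)) =
      insert x ((PA H).filter (fun t => H.inc t l)) := by
    ext t
    simp only [Finset.mem_filter, Finset.mem_univ, true_and, Finset.mem_insert, mem_PA]
    constructor
    · intro h
      by_cases e : t = x
      · left; exact e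
      · right
        refine ⟨fun h' => hl ?_, h⟩
        exact H.uniq t x l H.linf e h hx h' hx'
    · rintro (rfl | h)
      · exact hx
      · exact h.2
  rw [this, Finset.card_insert_of_notMem (by simp [hx'])] at h1
  omega

theorem card_lin_XA (v : O → A) {L : P × A} (hl : L.1 ≠ H.linf) :
    (lin H v L ∩ XA A H).card = q := by
  refine Eq.trans ?_ (card_aff_line (H := H) hl)
  rw [← Finset.card_image_of_injOn (s := lin H v L ∩ XA A H) (f := Prod.fst)]
  · congr 1
    ext t
    simp only [Finset.mem_image, Finset.mem_inter, mem_lin, mem_XA, Finset.mem_filter, mem_PA]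
    constructor
    · rintro ⟨y, ⟨h, h'⟩, rfl⟩
      exact ⟨h', h.1⟩
    · rintro ⟨h, h'⟩
      obtain ⟨a, ha⟩ := exists_point (v := v) h'
      exact ⟨(t, a), ⟨ha, h⟩, rfl⟩
  · exact (lin_injOn v L).mono (by intro y hy; simp at hy ⊢; exact hy.1)

theorem card_lin_XA_le (v : O → A) (L : P × A) : (lin H v L ∩ XA A H).card ≤ q := by
  by_cases hl : L.1 = H.linf
  · have : lin H v L ∩ XA A H = ∅ := by
      ext y
      simp only [Finset.mem_inter, mem_lin, mem_XA, Finset.notMem_empty, iff_false]
      rintro ⟨h, h'⟩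
      exact h' (hl ▸ h.1)
    simp [this]
  · exact (card_lin_XA v hl).le

theorem proper_of_XA {z : P × A} (h : z ∈ XA A H) : Proper H z := by
  intro i hi
  rw [mem_XA] at h
  apply h
  have := H.pi_linf i
  rw [← hi, H.pi_pi] at this
  rw [← hi]
  exact this

theorem card_Nb_XA (v : O → A) {z : P × A} (h : Proper H z) (i : Bool) :
    (Nb H v i z ∩ XA A H).card = q := card_lin_XA v (h i)

theorem mem_Nb_comm {i : Bool} {x z : P × A} : x ∈ Nb H v i z ↔ z ∈ Nb H v i x := by
  rw [mem_Nb, mem_Nb, onL_comm_iff]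

/-- every lifted line is the neighbourhood of its centre -/
theorem lin_eq_Nb (v : O → A) (i : Bool) (L : P × A) : lin H v L = Nb H v i (cen H i L) := by
  simp [Nb, NL, cen, H.pi_pi]

theorem NL_cen (i : Bool) (L : P × A) : NL H i (cen H i L) = L := by
  simp [NL, cen, H.pi_pi]

/-- for `x` in `N_i(z)`, the set `N_i(x)` is a lifted line through `z` -/
theorem onL_of_mem_Nb {i : Bool} {x z : P × A} (h : x ∈ Nb H v i z) : onL H v (NL H i x) z := by
  rw [mem_Nb] at h
  exact onL_comm h

end Geo

end Pool.Agent.helper41.TGE
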