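import Pool.Agent.helper24.TG.Props

set_option linter.all false
set_option autoImplicit false

/-!
# Weighted independent sets (MP_ce98d8_co, 9.2)
-/

namespace Pool.Agent.helper41.TGE

open Finset Classical
open Pool.Agent.helper24.TG
open Pool.Agent.helper11.Tight (nb eo mem_nb)

section WI

variable {V : Type} [Fintype V] [DecidableEq V]

/-- the quadratic form -/
noncomputable def QF (T : SimpleGraph V) (x : V → ℝ) : ℝ :=
  ∑ u, x u - (1 / 2) * ∑ u, ∑ w, (if T.Adj u w then x u * x w else 0)

/-- dependence on one coordinate -/
theorem QF_update (T : SimpleGraph V) (x : V → ℝ) (a : V) (s : ℝ) :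
    QF T (Function.update x a s) = QF T (Function.update x a 0) +
      s * (1 - ∑ w, (if T.Adj a w then x w else 0)) := by
  unfold QF
  have h1 : ∀ t : ℝ, ∑ u, Function.update x a t u = t + ∑ u ∈ univ.erase a, x u := by
    intro t
    rw [← Finset.add_sum_erase _ _ (Finset.mem_univ a)]
    simp only [Function.update_self]
    congr 1
    apply Finset.sum_congr rfl
    intro u hu
    rw [Function.update_of_ne (Finset.ne_of_mem_erase hu)]
  have h2 : ∀ t : ℝ, ∑ u, ∑ w, (if T.Adj u w then Function.update x a t u * Function.update x a t w
      else 0) = ∑ u ∈ univ.erase a, ∑ w ∈ univ.erase a, (if T.Adj u w then x u * x w else 0) +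
        2 * t * ∑ w, (if T.Adj a w then x w else 0) := by
    intro t
    rw [← Finset.add_sum_erase _ _ (Finset.mem_univ a)]
    have e1 : ∑ w, (if T.Adj a w then Function.update x a t a * Function.update x a t w
      else 0) = t * ∑ w, (if T.Adj a w then x w else 0) := by
      rw [Finset.mul_sum]
      apply Finset.sum_congr rfl
      intro w _
      by_cases hw : T.Adj a w
      · have : w ≠ a := fun e => T.irrefl (e ▸ hw)
        simp [hw, Function.update_of_ne this]
      · simp [hw]
    have e2 : ∀ u ∈ univ.erase a, ∑ w, (if T.Adj u w then Function.update x a t u *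
        Function.update x a t w else 0) = (if T.Adj a u then t * x u else 0) +
        ∑ w ∈ univ.erase a, (if T.Adj u w then x u * x w else 0) := by
      intro u hu
      have hu' := Finset.ne_of_mem_erase hu
      rw [← Finset.add_sum_erase _ _ (Finset.mem_univ a)]
      congr 1
      · simp only [Function.update_self, Function.update_of_ne hu', T.adj_comm u a]
        split_ifs
        · ring
        · rfl
      · apply Finset.sum_congr rfl
        intro w hw
        rw [Function.update_of_ne hu', Function.update_of_ne (Finset.ne_of_mem_erase hw)]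
    rw [e1, Finset.sum_congr rfl e2, Finset.sum_add_distrib]
    have e3 : ∑ u ∈ univ.erase a, (if T.Adj a u then t * x u else 0) =
        t * ∑ w, (if T.Adj a w then x w else 0) := by
      rw [← Finset.add_sum_erase _ (fun w => if T.Adj a w then x w else 0) (Finset.mem_univ a)]
      simp only [SimpleGraph.irrefl, if_false, zero_add]
      rw [Finset.mul_sum]
      apply Finset.sum_congr rfl
      intro u _
      split_ifs <;> simp
    rw [e3]
    ring
  rw [h1, h2, h1, h2]
  ring

/-- rounding -/
theorem round (T : SimpleGraph V) (W : Finset V) :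
    ∀ (n : ℕ) (x : V → ℝ), (∀ u, 0 ≤ x u) → (∀ u, x u ≤ 1) → (∀ u, u ∉ W → x u = 0) →
      (Finset.univ.filter (fun u => x u ≠ 0 ∧ x u ≠ 1)).card = n →
      ∃ R : Finset V, R ⊆ W ∧ QF T x ≤ QF T (fun u => if u ∈ R then 1 else 0) := by
  intro n
  induction n with
  | zero =>
    intro x h0 h1 hW hn
    rw [Finset.card_eq_zero] at hn
    refine ⟨Finset.univ.filter (fun u => x u ≠ 0), ?_, ?_⟩
    · intro u hu
      by_contra h
      simp at hu
      exact hu (hW u h)
    · apply le_of_eq
      congr 1
      funext u
      have : u ∉ (Finset.univ.filter (fun u => x u ≠ 0 ∧ x u ≠ 1)) := by simp [hn]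
      simp only [Finset.mem_filter, Finset.mem_univ, true_and, not_and, not_not] at this ⊢
      by_cases h : x u = 0
      · simp [h]
      · simp [h, this h]
  | succ n ih =>
    intro x h0 h1 hW hn
    have hne : (Finset.univ.filter (fun u => x u ≠ 0 ∧ x u ≠ 1)).Nonempty := by
      rw [← Finset.card_pos]; omega
    obtain ⟨a, ha⟩ := hne
    have ha' : x a ≠ 0 ∧ x a ≠ 1 := by simpa using ha
    have haW : a ∈ W := by
      by_contra h
      exact ha'.1 (hW a h)
    have key : ∀ s : ℝ, (s = 0 ∨ s = 1) → QF T x ≤ QF T (Function.update x a s) →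
        ∃ R : Finset V, R ⊆ W ∧ QF T x ≤ QF T (fun u => if u ∈ R then 1 else 0) := by
      intro s hs hle
      have hset : (Finset.univ.filter (fun u => Function.update x a s u ≠ 0 ∧
          Function.update x a s u ≠ 1)) =
          (Finset.univ.filter (fun u => x u ≠ 0 ∧ x u ≠ 1)).erase a := by
        ext u
        by_cases e : u = a
        · subst e
          rcases hs with rfl | rfl <;> simp
        · simp [Function.update_of_ne e, e]
      obtain ⟨R, hR1, hR2⟩ := ih (Function.update x a s) (by
        intro u
        by_cases e : u = a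
        · subst e; rcases hs with rfl | rfl <;> simp
        · rw [Function.update_of_ne e]; exact h0 u) (by
        intro u
        by_cases e : u = a
        · subst e; rcases hs with rfl | rfl <;> simp
        · rw [Function.update_of_ne e]; exact h1 u) (by
        intro u hu
        have e : u ≠ a := fun e => hu (e ▸ haW)
        rw [Function.update_of_ne e]; exact hW u hu) (by
        rw [hset, Finset.card_erase_of_mem ha, hn]; rfl)
      exact ⟨R, hR1, hle.trans hR2⟩
    have hx : QF T x = QF T (Function.update x a 0) +
        x a * (1 - ∑ w, (if T.Adj a w then x w else 0)) := by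
      conv_lhs => rw [← Function.update_eq_self a x]
      exact QF_update T x a (x a)
    by_cases hb : 0 ≤ 1 - ∑ w, (if T.Adj a w then x w else 0)
    · apply key 1 (Or.inr rfl)
      rw [QF_update T x a 1, hx]
      have := mul_le_mul_of_nonneg_right (h1 a) hb
      linarith
    · apply key 0 (Or.inl rfl)
      rw [hx]
      push_neg at hb
      have := mul_nonpos_of_nonneg_of_nonpos (h0 a) hb.le
      linarith

theorem QF_ind (T : SimpleGraph V) (R : Finset V) :
    QF T (fun u => if u ∈ R then (1 : ℝ) else 0) = R.card - (1 / 2) * eo T R R := by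
  unfold QF eo
  congr 1
  · simp
  · congr 1
    rw [Finset.card_filter, Finset.sum_product]
    push_cast
    rw [← Finset.sum_subset (Finset.subset_univ R)]
    · apply Finset.sum_congr rfl
      intro u hu
      rw [← Finset.sum_subset (Finset.subset_univ R)]
      · apply Finset.sum_congr rfl
        intro w hw
        simp [hu, hw]
      · intro w _ hw
        simp [hw]
    · intro u _ hu
      simp [hu]

/-- deleting one vertex of every edge -/
theorem delete (T : SimpleGraph V) :
    ∀ (n : ℕ) (R : Finset V), R.card = n → ∃ I : Finset V, I ⊆ R ∧ IndT T I ∧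
      (R.card : ℝ) - (1 / 2) * eo T R R ≤ I.card := by
  intro n
  induction n with
  | zero =>
    intro R hR
    refine ⟨R, subset_rfl, ?_, ?_⟩
    · rw [Finset.card_eq_zero] at hR
      subst hR
      intro a ha
      simp at ha
    · have : (0 : ℝ) ≤ eo T R R := Nat.cast_nonneg _
      linarith
  | succ n ih =>
    intro R hR
    by_cases hI : IndT T R
    · refine ⟨R, subset_rfl, hI, ?_⟩
      have : (0 : ℝ) ≤ eo T R R := Nat.cast_nonneg _
      linarith
    · unfold IndT at hI
      push_neg at hI
      obtain ⟨a, ha, b, hb, hab⟩ := hI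
      obtain ⟨I, h1, h2, h3⟩ := ih (R.erase a) (by rw [Finset.card_erase_of_mem ha, hR]; rfl)
      refine ⟨I, h1.trans (Finset.erase_subset _ _), h2, ?_⟩
      have hq1 := QF_ind T R
      have hq2 := QF_ind T (R.erase a)
      have e1 : (fun u => if u ∈ R then (1 : ℝ) else 0) =
          Function.update (fun u => if u ∈ R then (1 : ℝ) else 0) a 1 := by
        funext u
        by_cases e : u = a
        · subst e; simp [ha]
        · simp [Function.update_of_ne e]
      have e2 : (fun u => if u ∈ R.erase a then (1 : ℝ) else 0) =
          Function.update (fun u => if u ∈ R then (1 : ℝ) else 0) a 0 := by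
        funext u
        by_cases e : u = a
        · subst e; simp
        · simp [Function.update_of_ne e, e]
      have h4 := QF_update T (fun u => if u ∈ R then (1 : ℝ) else 0) a 1
      rw [← e1, ← e2, hq1, hq2] at h4
      have h5 : (1 : ℝ) ≤ ∑ w, (if T.Adj a w then (if w ∈ R then (1 : ℝ) else 0) else 0) := by
        have : (fun w => if T.Adj a w then (if w ∈ R then (1 : ℝ) else 0) else 0) b = 1 := by
          simp [hab, hb]
        refine this.symm.le.trans ?_
        apply Finset.single_le_sum (f := fun w => if T.Adj a w then
          (if w ∈ R then (1 : ℝ) else 0) else 0) _ (Finset.mem_univ b)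
        intro w _
        beta_reduce
        split_ifs <;> norm_num
      linarith

/-- the weighted bound -/
theorem weighted (T : SimpleGraph V) (W : Finset V) (x : V → ℝ) (h0 : ∀ u, 0 ≤ x u)
    (h1 : ∀ u, x u ≤ 1) (hW : ∀ u, u ∉ W → x u = 0) :
    ∃ I : Finset V, I ⊆ W ∧ IndT T I ∧
      ∑ u, x u - (1 / 2) * ∑ u, ∑ w, (if T.Adj u w then x u * x w else 0) ≤ I.card := by
  obtain ⟨R, hR1, hR2⟩ := round T W _ x h0 h1 hW rfl
  obtain ⟨I, hI1, hI2, hI3⟩ := delete T _ R rfl
  refine ⟨I, hI1.trans hR1, hI2, ?_⟩
  rw [QF_ind] at hR2
  exact (hR2.trans hI3)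

end WI

end Pool.Agent.helper41.TGE
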