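import Pool.Agent.helper41.TGE.Geo
import Pool.Agent.helper41.TGE.WI
import Pool.Agent.helper41.TGE.Num

set_option linter.all false
set_option autoImplicit false

/-!
# Slice structure (MP_ce98d8_co, 9.1 and 9.2)
-/

namespace Pool.Agent.helper41.TGE

open Finset Classical
open Pool.Agent.helper24.TG
open Pool.Agent.helper11.Tight (nb eo mem_nb)

section Slice

variable {P O A V : Type} [Fintype P] [DecidableEq P] [Fintype O] [DecidableEq O]
  [Fintype A] [DecidableEq A] [AddCommGroup A] [Fintype V] [DecidableEq V]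

/-- number of points of `S0` with label `u` -/
noncomputable def al (φ : P → V) (S0 : Finset (P × A)) (u : V) : ℕ :=
  (S0.filter (fun x => φ x.1 = u)).card

/-- the heavy labels -/
noncomputable def UU (p : Par) (φ : P → V) (S0 : Finset (P × A)) : Finset V :=
  Finset.univ.filter (fun u => p.w < al φ S0 u)

/-- the light labels -/
noncomputable def VV (p : Par) (φ : P → V) (S0 : Finset (P × A)) : Finset V :=
  Finset.univ.filter (fun u => 1 ≤ al φ S0 u ∧ al φ S0 u ≤ p.w)

@[simp] theorem mem_UU {p : Par} {φ : P → V} {S0 : Finset (P × A)} {u : V} :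
    u ∈ UU p φ S0 ↔ p.w < al φ S0 u := by simp [UU]

@[simp] theorem mem_VV {p : Par} {φ : P → V} {S0 : Finset (P × A)} {u : V} :
    u ∈ VV p φ S0 ↔ 1 ≤ al φ S0 u ∧ al φ S0 u ≤ p.w := by simp [VV]

variable {p : Par} {H : Host P O p.q} {v : O → A} {T : SimpleGraph V} {φ : P → V}

theorem card_tyS (hb : Bald p H φ) (Z : Finset V) : (tyS H φ Z).card = p.w * Z.card := by
  have h : (tyS H φ Z).card = ∑ u ∈ Z, ((tyS H φ Z).filter (fun t => φ t = u)).card := by
    apply Finset.card_eq_sum_card_fiberwise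
    intro t ht
    simp only [Finset.mem_coe, mem_tyS] at ht
    exact ht.2
  rw [h]
  rw [Finset.sum_congr rfl (g := fun _ => p.w)]
  · rw [Finset.sum_const, smul_eq_mul, mul_comm]
  · intro u hu
    rw [← hb u]
    congr 1
    ext t
    simp only [Finset.mem_filter, mem_tyS, mem_PA]
    constructor
    · rintro ⟨⟨h1, h2⟩, h3⟩
      exact ⟨h1, h3⟩
    · rintro ⟨h1, h3⟩
      exact ⟨⟨h1, h3 ▸ hu⟩, h3⟩

theorem al_le_of_adj (hb : Bald p H φ) {S0 : Finset (P × A)} (hsub : S0 ⊆ XA A H)
    (hF : FInd H v T φ S0) {u u' : V} (hadj : T.Adj u u') (h : 1 ≤ al φ S0 u') :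
    al φ S0 u ≤ p.w := by
  unfold al at h ⊢
  obtain ⟨x, hx⟩ := Finset.card_pos.1 h
  rw [Finset.mem_filter] at hx
  have hcol : ∀ y ∈ S0.filter (fun x => φ x.1 = u), col H v x y := by
    intro y hy
    rw [Finset.mem_filter] at hy
    apply col_symm
    apply hF y hy.1 x hx.1
    rw [hy.2, hx.2]
    exact hadj
  rw [← hb u, ← Finset.card_image_of_injOn (s := S0.filter (fun x => φ x.1 = u)) (f := Prod.fst)]
  · apply Finset.card_le_card
    intro t ht
    rw [Finset.mem_image] at ht
    obtain ⟨y, hy, rfl⟩ := ht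
    rw [Finset.mem_filter] at hy
    have := hsub hy.1
    rw [mem_XA] at this
    simp [this, hy.2]
  · intro y hy y' hy' e
    exact col_uniq (hcol y hy) (hcol y' hy') e

theorem UU_nonadj (hb : Bald p H φ) {S0 : Finset (P × A)} (hsub : S0 ⊆ XA A H)
    (hF : FInd H v T φ S0) {u u' : V} (hu : u ∈ UU p φ S0) (hu' : 1 ≤ al φ S0 u') :
    ¬ T.Adj u u' := by
  intro hadj
  have h1 := al_le_of_adj hb hsub hF hadj hu'
  rw [mem_UU] at hu
  omega

theorem UU_ind (hb : Bald p H φ) {S0 : Finset (P × A)} (hsub : S0 ⊆ XA A H)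
    (hF : FInd H v T φ S0) : IndT T (UU p φ S0) := by
  intro a ha b hb'
  apply UU_nonadj hb hsub hF ha
  rw [mem_UU] at hb'
  have := w_pos p
  omega

theorem alphaT {m N d K E L tau La : ℕ} {MM : Finset (Finset V)}
    (hT : TS m N d K E L tau La T MM) {U : Finset V} (hU : IndT T U) : U.card ≤ d := by
  obtain ⟨M, hM, h⟩ := hT.stab U hU
  rcases Nat.eq_zero_or_pos K with hK | hK
  · subst hK
    simp at h
    rw [← hT.card_M M hM]
    apply Finset.card_le_card
    exact h
  · have : K * U.card ≤ K * d := by omega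
    exact Nat.le_of_mul_le_mul_left this hK

/-- the adjacent pairs of points, label by label -/
theorem pair_count (S' : Finset (P × A)) :
    ∑ u, ∑ u', (if T.Adj u u' then (al φ S' u : ℝ) * al φ S' u' else 0) =
      ((S' ×ˢ S').filter (fun r => T.Adj (φ r.1.1) (φ r.2.1))).card := by
  have h : ((S' ×ˢ S').filter (fun r => T.Adj (φ r.1.1) (φ r.2.1))).card =
      ∑ uu : V × V, (((S' ×ˢ S').filter (fun r => T.Adj (φ r.1.1) (φ r.2.1))).filter
        (fun r => (φ r.1.1, φ r.2.1) = uu)).card := by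
    apply Finset.card_eq_sum_card_fiberwise
    intro t ht
    simp
  rw [h, Nat.cast_sum, ← Finset.univ_product_univ, Finset.sum_product]
  apply Finset.sum_congr rfl
  intro u _
  apply Finset.sum_congr rfl
  intro u' _
  by_cases hadj : T.Adj u u'
  · rw [if_pos hadj]
    rw [← Nat.cast_mul]
    congr 1
    unfold al
    rw [← Finset.card_product]
    congr 1
    ext r
    simp only [Finset.mem_product, Finset.mem_filter, Prod.mk.injEq]
    constructor
    · rintro ⟨⟨h1, h2⟩, h3, h4⟩
      refine ⟨⟨⟨h1, h3⟩, ?_⟩, h2, h4⟩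
      rw [h2, h4]; exact hadj
    · rintro ⟨⟨⟨h1, h3⟩, _⟩, h2, h4⟩
      exact ⟨⟨h1, h2⟩, h3, h4⟩
  · rw [if_neg hadj]
    symm
    rw [Nat.cast_eq_zero, Finset.card_eq_zero]
    ext r
    simp only [Finset.mem_product, Finset.mem_filter, Prod.mk.injEq, Finset.notMem_empty,
      iff_false]
    rintro ⟨⟨_, h⟩, h2, h4⟩
    rw [h2, h4] at h
    exact hadj h

theorem sum_al (S' : Finset (P × A)) : ∑ u, al φ S' u = S'.card := by
  have h : S'.card = ∑ u : V, (S'.filter (fun x => φ x.1 = u)).card := by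
    apply Finset.card_eq_sum_card_fiberwise
    intro t ht
    simp
  rw [h]; rfl

/-- 9.2 -/
theorem light_le {MM : Finset (Finset V)} (hT : TSp p T MM) (hb : Bald p H φ)
    (h5 : P5 p H v T φ) {S0 : Finset (P × A)}
    (hsub : S0 ⊆ XA A H) (hF : FInd H v T φ S0) :
    ((S0.filter (fun x => φ x.1 ∈ VV p φ S0)).card : ℝ) ≤
      4 / p.c ^ 5 * (p.B * p.w * (p.d - (UU p φ S0).card)) := by
  set S' := S0.filter (fun x => φ x.1 ∈ VV p φ S0) with hS'
  have hS'0 : S' ⊆ S0 := Finset.filter_subset _ _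
  have hF' : FInd H v T φ S' := fun x hx y hy => hF x (hS'0 hx) y (hS'0 hy)
  have hp5 := h5 S' (hS'0.trans hsub) hF'
  have hal : ∀ u, al φ S' u ≤ p.w := by
    intro u
    by_cases hu : u ∈ VV p φ S0
    · refine le_trans ?_ (mem_VV.1 hu).2
      apply Finset.card_le_card
      exact Finset.filter_subset_filter _ hS'0
    · have : al φ S' u = 0 := by
        unfold al
        rw [Finset.card_eq_zero]
        ext x
        simp only [Finset.mem_filter, hS', Finset.notMem_empty, iff_false]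
        rintro ⟨⟨_, h1⟩, h2⟩
        exact hu (h2 ▸ h1)
      omega
  have hal0 : ∀ u, u ∉ VV p φ S0 → al φ S' u = 0 := by
    intro u hu
    unfold al
    rw [Finset.card_eq_zero]
    ext x
    simp only [Finset.mem_filter, hS', Finset.notMem_empty, iff_false]
    rintro ⟨⟨_, h1⟩, h2⟩
    exact hu (h2 ▸ h1)
  have hc := rc p
  have hc0 := rc0 p
  have hB := rB p
  have hw := rw' p
  have hq := rq p
  have hd := rd p
  -- the scaling
  set θ : ℝ := (p.c : ℝ) ^ 5 / (2 * p.B) / p.w with hθ
  have hθ0 : 0 < θ := by positivity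
  have hθ1 : θ * p.w ≤ 1 := by
    rw [hθ, div_mul_cancel₀ _ hw.ne', div_le_one (by positivity)]
    have h1 := B_ge_pow p 5 (by norm_num)
    linarith
  obtain ⟨I, hI1, hI2, hI3⟩ := weighted T (VV p φ S0) (fun u => θ * al φ S' u)
    (fun u => by positivity) (fun u => by
      have : (al φ S' u : ℝ) ≤ p.w := by exact_mod_cast hal u
      calc θ * al φ S' u ≤ θ * p.w := mul_le_mul_of_nonneg_left this hθ0.le
        _ ≤ 1 := hθ1) (fun u hu => by simp [hal0 u hu])
  have e1 : ∑ u, θ * (al φ S' u : ℝ) = θ * S'.card := by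
    rw [← Finset.mul_sum, ← sum_al (φ := φ) S']
    push_cast
    rfl
  have e2 : ∑ u, ∑ w, (if T.Adj u w then (θ * (al φ S' u : ℝ)) * (θ * al φ S' w) else 0) =
      θ ^ 2 * ((S' ×ˢ S').filter (fun r => T.Adj (φ r.1.1) (φ r.2.1))).card := by
    rw [← pair_count, Finset.mul_sum]
    apply Finset.sum_congr rfl
    intro u _
    rw [Finset.mul_sum]
    apply Finset.sum_congr rfl
    intro w _
    split_ifs
    · ring
    · ring
  rw [e1, e2] at hI3
  -- the independent set
  have hdis : Disjoint I (UU p φ S0) := by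
    rw [Finset.disjoint_left]
    intro u hu hu'
    have h1 := mem_VV.1 (hI1 hu)
    have h2 := mem_UU.1 hu'
    omega
  have hind : IndT T (I ∪ UU p φ S0) := by
    intro a ha b hb'
    rw [Finset.mem_union] at ha hb'
    rcases ha with ha | ha
    · rcases hb' with hb' | hb'
      · exact hI2 a ha b hb'
      · intro hadj
        exact UU_nonadj hb hsub hF hb' (mem_VV.1 (hI1 ha)).1 hadj.symm
    · rcases hb' with hb' | hb'
      · exact UU_nonadj hb hsub hF ha (mem_VV.1 (hI1 hb')).1
      · exact UU_ind hb hsub hF a ha b hb'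
  have hcard := alphaT hT hind
  rw [Finset.card_union_of_disjoint hdis] at hcard
  have hcard' : (I.card : ℝ) ≤ p.d - (UU p φ S0).card := by
    have : (I.card : ℝ) + (UU p φ S0).card ≤ p.d := by exact_mod_cast hcard
    linarith
  -- conclusion
  have hN5 := N5' p
  have hrho : p.rho * p.q = p.w * p.d := rho_q p
  have hkey : θ * p.c * p.rho ≤ 1 / 2 := by
    have h1 : p.rho = p.w * p.d / p.q := by
      rw [eq_div_iff hq.ne', hrho]
    rw [hθ, h1]
    have : (p.c : ℝ) ^ 5 / (2 * p.B) / p.w * p.c * (p.w * p.d / p.q) =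
        (p.c ^ 6 * p.d) / (2 * (p.B * p.q)) := by
      field_simp
    rw [this, div_le_iff₀ (by positivity)]
    linarith
  have hs0 : (0 : ℝ) ≤ S'.card := Nat.cast_nonneg _
  have h6 : θ ^ 2 * ((S' ×ˢ S').filter (fun r => T.Adj (φ r.1.1) (φ r.2.1))).card ≤
      θ * S'.card := by
    calc θ ^ 2 * (((S' ×ˢ S').filter (fun r => T.Adj (φ r.1.1) (φ r.2.1))).card : ℝ)
        ≤ θ ^ 2 * (2 * p.c * p.rho * S'.card) := mul_le_mul_of_nonneg_left hp5 (by positivity)
      _ = (θ * p.c * p.rho) * (2 * θ * S'.card) := by ring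
      _ ≤ (1 / 2) * (2 * θ * S'.card) := mul_le_mul_of_nonneg_right hkey (by positivity)
      _ = _ := by ring
  have h7 : θ * S'.card / 2 ≤ p.d - (UU p φ S0).card := by
    have := hI3.trans hcard'
    linarith
  have h8 : (S'.card : ℝ) ≤ 2 / θ * (p.d - (UU p φ S0).card) := by
    rw [div_mul_eq_mul_div, le_div_iff₀ hθ0]
    linarith
  refine h8.trans (le_of_eq ?_)
  rw [hθ]
  field_simp
  ring

end Slice

end Pool.Agent.helper41.TGE
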