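import Pool.Agent.helper24.TG.S9
import Pool.Agent.helper24.TG.Geo
import Pool.Agent.helper41.TGE.Slice
import Pool.Agent.helper41.TGE.Acc

set_option linter.all false
set_option autoImplicit false

/-!
# The new graph (MP_ce98d8_co, section 6): regular, triangle-free, models
-/

namespace Pool.Agent.helper41.TGE

open Finset Classical
open Pool.Agent.helper24.TG
open Pool.Agent.helper11.Tight (nb eo mem_nb)

section GraphA

variable {P O A V : Type} [Fintype P] [DecidableEq P] [Fintype O] [DecidableEq O]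
  [Fintype A] [DecidableEq A] [AddCommGroup A] [Fintype V] [DecidableEq V]

/-- the affine points as a type -/
abbrev XT (A : Type) {P O : Type} [Fintype P] [DecidableEq P] [Fintype O] [DecidableEq O] {q : ℕ}
    (H : Host P O q) : Type := {x : P × A // ¬ H.inc x.1 H.linf}

/-- the adjacency of the new graph -/
def adjG (p : Par) (H : Host P O p.q) (v : O → A) (T : SimpleGraph V) (φ : Fin p.C → P → V)
    (a b : XT A H × Fin p.C) : Prop :=
  if a.2 = b.2 then T.Adj (φ a.2 a.1.1.1) (φ a.2 b.1.1.1) ∧ ¬ col H v a.1.1 b.1.1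
  else b.1.1 ∈ Nb H v (p.hf a.2 != p.hf b.2) a.1.1

theorem bne_comm' (a b : Bool) : (a != b) = (b != a) := by cases a <;> cases b <;> rfl

/-- the new graph -/
def GG (p : Par) (H : Host P O p.q) (v : O → A) (T : SimpleGraph V) (φ : Fin p.C → P → V) :
    SimpleGraph (XT A H × Fin p.C) where
  Adj := adjG p H v T φ
  symm := ⟨by
    intro a b h
    unfold adjG at h ⊢
    by_cases e : a.2 = b.2
    · rw [if_pos e] at h
      rw [if_pos e.symm, ← e]
      exact ⟨h.1.symm, fun h' => h.2 (col_symm h')⟩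
    · rw [if_neg e] at h
      rw [if_neg (fun h' => e h'.symm), bne_comm']
      exact mem_Nb_comm.1 h⟩
  loopless := ⟨by
    intro a h
    unfold adjG at h
    rw [if_pos rfl] at h
    exact T.irrefl h.1⟩

variable {p : Par} {H : Host P O p.q} {v : O → A} {T : SimpleGraph V} {φ : Fin p.C → P → V}
  {MM : Finset (Finset V)}

theorem GG_adj {a b : XT A H × Fin p.C} : (GG p H v T φ).Adj a b ↔ adjG p H v T φ a b := Iff.rfl

/-- the slice of a set of vertices -/
noncomputable def slice (U : Finset (XT A H × Fin p.C)) (j : Fin p.C) : Finset (P × A) :=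
  (U.filter (fun a => a.2 = j)).image (fun a => a.1.1)

theorem mem_slice {U : Finset (XT A H × Fin p.C)} {j : Fin p.C} {x : P × A} :
    x ∈ slice U j ↔ ∃ h : ¬ H.inc x.1 H.linf, ((⟨x, h⟩, j) : XT A H × Fin p.C) ∈ U := by
  simp only [slice, Finset.mem_image, Finset.mem_filter]
  constructor
  · rintro ⟨a, ⟨h1, h2⟩, rfl⟩
    refine ⟨a.1.2, ?_⟩
    subst h2
    exact h1
  · rintro ⟨h, h'⟩
    exact ⟨_, ⟨h', rfl⟩, rfl⟩

theorem card_slice (U : Finset (XT A H × Fin p.C)) : U.card = ∑ j, (slice U j).card := by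
  have h : U.card = ∑ j : Fin p.C, (U.filter (fun a => a.2 = j)).card := by
    apply Finset.card_eq_sum_card_fiberwise
    intro t _
    simp
  rw [h]
  apply Finset.sum_congr rfl
  intro j _
  unfold slice
  rw [Finset.card_image_of_injOn]
  intro a ha b hb hab
  simp only [Finset.coe_filter, Set.mem_setOf_eq] at ha hb
  exact Prod.ext (Subtype.ext hab) (ha.2.trans hb.2.symm)

/-- number of vertices -/
theorem card_PA : (PA H).card = p.q ^ 2 := by
  have h1 := H.card_P
  have h2 := H.card_line H.linf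
  have h3 := Finset.card_filter_add_card_filter_not (s := (Finset.univ : Finset P))
    (fun x => H.inc x H.linf)
  rw [h2, Finset.card_univ, h1] at h3
  have : (PA H).card = (Finset.univ.filter (fun x => ¬ H.inc x H.linf)).card := rfl
  omega

theorem card_XA : (XA A H).card = Fintype.card A * p.q ^ 2 := by
  have : XA A H = PA H ×ˢ (Finset.univ : Finset A) := by
    ext y
    simp
  rw [this, Finset.card_product, Finset.card_univ, mul_comm, card_PA]

theorem card_GV (hA : Fintype.card A = p.B) :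
    Fintype.card (XT A H × Fin p.C) = p.B * p.q ^ 2 * p.C := by
  rw [Fintype.card_prod, Fintype.card_fin]
  congr 1
  rw [← hA, ← card_XA (A := A) (H := H)]
  rw [Fintype.card_subtype]
  congr 1

/-- the own neighbours of a point -/
theorem own_deg (hA : Fintype.card A = p.B) (hT : TSp p T MM) {j : Fin p.C} (hb : Bald p H (φ j))
    {x : P × A} (hx : x ∈ XA A H) :
    ((XA A H).filter (fun y => T.Adj (φ j x.1) (φ j y.1) ∧ ¬ col H v x y)).card =
      (p.B - 1) * (p.w * p.d) := by
  have h1 : (XA A H).filter (fun y => T.Adj (φ j x.1) (φ j y.1) ∧ ¬ col H v x y) =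
      (XA A H ∩ labS A (φ j) (nb T (φ j x.1))) \
        (Ball H v x ∩ (XA A H ∩ labS A (φ j) (nb T (φ j x.1)))) := by
    ext y
    simp only [Finset.mem_filter, Finset.mem_sdiff, Finset.mem_inter, mem_labS, mem_nb, mem_Ball,
      not_and]
    constructor
    · rintro ⟨h1, h2, h3⟩
      refine ⟨⟨h1, h2⟩, ?_⟩
      rintro (h | h)
      · subst h
        exact absurd h2 (T.irrefl)
      · exact absurd h h3
    · rintro ⟨⟨h1, h2⟩, h3⟩
      exact ⟨h1, h2, fun h => h3 (Or.inr h) h1 h2⟩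
  rw [h1, Finset.card_sdiff_of_subset Finset.inter_subset_right, card_ball_lab, card_XA_lab, hA,
    card_tyS hb, hT.reg, Nat.sub_mul, one_mul]

theorem reg_GG (hA : Fintype.card A = p.B) (hT : TSp p T MM) (hb : ∀ j, Bald p H (φ j))
    (a : XT A H × Fin p.C) : (nb (GG p H v T φ) a).card = p.k := by
  rw [card_slice, ← Finset.add_sum_erase _ _ (Finset.mem_univ a.2)]
  obtain ⟨⟨x, hx⟩, j⟩ := a
  have hx' : x ∈ XA A H := by rw [mem_XA]; exact hx
  have h1 : slice (nb (GG p H v T φ) (⟨x, hx⟩, j)) j =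
      (XA A H).filter (fun y => T.Adj (φ j x.1) (φ j y.1) ∧ ¬ col H v x y) := by
    ext y
    rw [mem_slice]
    simp only [mem_nb, GG_adj, adjG, if_true, Finset.mem_filter, mem_XA]
    constructor
    · rintro ⟨h, h'⟩
      exact ⟨h, h'⟩
    · rintro ⟨h, h'⟩
      exact ⟨h, h'⟩
  have h2 : ∀ j' ∈ Finset.univ.erase j,
      (slice (nb (GG p H v T φ) (⟨x, hx⟩, j)) j').card = p.q := by
    intro j' hj'
    have hne : ¬ j = j' := fun e => (Finset.ne_of_mem_erase hj') e.symm
    refine Eq.trans ?_ (card_Nb_XA v (proper_of_XA hx') (p.hf j != p.hf j'))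
    congr 1
    ext y
    rw [mem_slice]
    simp only [mem_nb, GG_adj, adjG, if_neg hne, Finset.mem_inter, mem_XA]
    constructor
    · rintro ⟨h, h'⟩
      exact ⟨h', h⟩
    · rintro ⟨h', h⟩
      exact ⟨h, h'⟩
  rw [h1, own_deg hA hT (hb j) hx', Finset.sum_congr rfl h2, Finset.sum_const,
    Finset.card_erase_of_mem (Finset.mem_univ _), Finset.card_univ, Fintype.card_fin]
  unfold Par.k
  rw [smul_eq_mul, mul_comm (p.C - 1), add_comm]

/-! ### triangles -/

theorem no_tri1 (h2 : ∀ a : A, a + a = 0) (hv : v ∈ Om A H.TT) {x y z : P × A}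
    (h12 : x ∈ Nb H v false y) (h23 : y ∈ Nb H v false z) (h13 : x ∈ Nb H v false z) : False := by
  rw [mem_Nb] at h12 h23 h13
  have := mem_Om.1 hv _ (H.tt1 x.1 y.1 z.1 h12.1 h23.1 h13.1)
  apply this
  rw [sum_osup h2]
  have e1 := h12.2
  have e2 := h23.2
  have e3 := h13.2
  simp only [NL] at e1 e2 e3
  rw [← e1, ← e2, ← e3]
  have a1 := h2 x.2
  have a2 := h2 y.2
  have a3 := h2 z.2
  calc x.2 + y.2 + (y.2 + z.2) + (x.2 + z.2) = (x.2 + x.2) + (y.2 + y.2) + (z.2 + z.2) := by abel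
    _ = 0 := by rw [a1, a2, a3]; simp

theorem no_tri2 (h2 : ∀ a : A, a + a = 0) (hv : v ∈ Om A H.TT) {x y z : P × A}
    (h12 : x ∈ Nb H v true y) (h23 : y ∈ Nb H v false z) (h13 : x ∈ Nb H v true z) : False := by
  rw [mem_Nb] at h12 h23 h13
  have := mem_Om.1 hv _ (H.tt2 x.1 y.1 z.1 h12.1 h23.1 h13.1)
  apply this
  rw [sum_osup h2]
  have e1 := h12.2
  have e2 := h23.2
  have e3 := h13.2
  simp only [NL] at e1 e2 e3
  rw [← e1, ← e2, ← e3]
  have a1 := h2 x.2
  have a2 := h2 y.2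
  have a3 := h2 z.2
  calc x.2 + y.2 + (y.2 + z.2) + (x.2 + z.2) = (x.2 + x.2) + (y.2 + y.2) + (z.2 + z.2) := by abel
    _ = 0 := by rw [a1, a2, a3]; simp

theorem no_tri (h2 : ∀ a : A, a + a = 0) (hv : v ∈ Om A H.TT) {x y z : P × A} (a b c : Bool)
    (h12 : y ∈ Nb H v (a != b) x) (h23 : z ∈ Nb H v (b != c) y) (h13 : z ∈ Nb H v (a != c) x) :
    False := by
  have key : ∀ (a b c : Bool), (a = b ∧ b = c) ∨ (a ≠ b ∧ b = c) ∨ (a = b ∧ b ≠ c) ∨
    (a = c ∧ a ≠ b) := by decide
  rcases key a b c with ⟨rfl, rfl⟩ | ⟨h, rfl⟩ | ⟨rfl, h⟩ | ⟨rfl, h⟩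
  · simp only [bne_self_eq_false] at h12 h23 h13
    exact no_tri1 h2 hv (mem_Nb_comm.1 h12) (mem_Nb_comm.1 h23) (mem_Nb_comm.1 h13)
  · have e : (a != b) = true := by simpa using h
    rw [e] at h12 h13
    rw [bne_self_eq_false] at h23
    exact no_tri2 h2 hv (mem_Nb_comm.1 h12) (mem_Nb_comm.1 h23) (mem_Nb_comm.1 h13)
  · have e : (a != c) = true := by simpa using h
    rw [e] at h23 h13
    rw [bne_self_eq_false] at h12
    exact no_tri2 h2 hv h13 (mem_Nb_comm.1 h12) h23
  · have e : (a != b) = true := by simpa using h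
    have e' : (b != a) = true := by rw [bne_comm']; exact e
    rw [e] at h12
    rw [e'] at h23
    rw [bne_self_eq_false] at h13
    exact no_tri2 h2 hv h12 (mem_Nb_comm.1 h13) (mem_Nb_comm.1 h23)

/-- two points of a set with adjacent labels and a common neighbour are collinear -/
theorem col_of_common {φ0 : P → V} {x y z : P × A} {i : Bool} (hT : T.Adj (φ0 x.1) (φ0 y.1))
    (hx : z ∈ Nb H v i x) (hy : z ∈ Nb H v i y) : col H v x y := by
  refine ⟨fun e => T.irrefl (e ▸ hT), NL H i z, ?_, ?_⟩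
  · exact mem_Nb.1 (mem_Nb_comm.1 hx)
  · exact mem_Nb.1 (mem_Nb_comm.1 hy)

theorem tri_GG (h2 : ∀ a : A, a + a = 0) (hv : v ∈ Om A H.TT) (hT : TSp p T MM)
    (a b c : XT A H × Fin p.C) (hab : (GG p H v T φ).Adj a b) (hbc : (GG p H v T φ).Adj b c) :
    ¬ (GG p H v T φ).Adj a c := by
  intro hac
  obtain ⟨⟨x, hx⟩, j1⟩ := a
  obtain ⟨⟨y, hy⟩, j2⟩ := b
  obtain ⟨⟨z, hz⟩, j3⟩ := c
  rw [GG_adj] at hab hbc hac
  unfold adjG at hab hbc hac
  dsimp only at hab hbc hac
  by_cases e12 : j1 = j2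
  · subst e12
    rw [if_pos rfl] at hab
    by_cases e13 : j1 = j3
    · subst e13
      rw [if_pos rfl] at hbc hac
      exact hT.tri _ _ _ hab.1 hbc.1 hac.1
    · rw [if_neg e13] at hbc hac
      exact hab.2 (col_of_common hab.1 hac hbc)
  · rw [if_neg e12] at hab
    by_cases e13 : j1 = j3
    · subst e13
      rw [if_neg (fun h => e12 h.symm)] at hbc
      rw [if_pos rfl] at hac
      apply hac.2
      rw [bne_comm'] at hbc
      exact col_of_common hac.1 hab (mem_Nb_comm.1 hbc)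
    · rw [if_neg e13] at hac
      by_cases e23 : j2 = j3
      · subst e23
        rw [if_pos rfl] at hbc
        exact hbc.2 (col_of_common hbc.1 (mem_Nb_comm.1 hab) (mem_Nb_comm.1 hac))
      · rw [if_neg e23] at hbc
        exact no_tri h2 hv _ _ _ hab hbc hac

end GraphA

end Pool.Agent.helper41.TGE
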