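import Pool.Agent.helper41.TGE.GraphA

set_option linter.all false
set_option autoImplicit false

/-!
# The new graph (MP_ce98d8_co, sections 6, 11): models, stability, saturation
-/

namespace Pool.Agent.helper41.TGE

open Finset Classical
open Pool.Agent.helper24.TG
open Pool.Agent.helper11.Tight (nb eo mem_nb)

section GraphB

variable {P O A V : Type} [Fintype P] [DecidableEq P] [Fintype O] [DecidableEq O]
  [Fintype A] [DecidableEq A] [AddCommGroup A] [Fintype V] [DecidableEq V]
variable {p : Par} {H : Host P O p.q} {v : O → A} {T : SimpleGraph V} {φ : Fin p.C → P → V}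
  {MM : Finset (Finset V)}

/-- the set of vertices with given slices -/
noncomputable def ofSlices (p : Par) (H : Host P O p.q) (S : Fin p.C → Finset (P × A)) :
    Finset (XT A H × Fin p.C) :=
  Finset.univ.filter (fun a => a.1.1 ∈ S a.2)

theorem slice_ofSlices {S : Fin p.C → Finset (P × A)} (j : Fin p.C) :
    slice (ofSlices p H S) j = S j ∩ XA A H := by
  ext x
  rw [mem_slice, Finset.mem_inter, mem_XA]
  simp only [ofSlices, Finset.mem_filter, Finset.mem_univ, true_and]
  constructor
  · rintro ⟨h, h'⟩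
    exact ⟨h', h⟩
  · rintro ⟨h, h'⟩
    exact ⟨h', h⟩

theorem slice_sdiff {U W : Finset (XT A H × Fin p.C)} (j : Fin p.C) :
    slice (U \ W) j = slice U j \ slice W j := by
  ext x
  rw [Finset.mem_sdiff, mem_slice, mem_slice, mem_slice]
  simp only [Finset.mem_sdiff]
  constructor
  · rintro ⟨h, h1, h2⟩
    refine ⟨⟨h, h1⟩, ?_⟩
    rintro ⟨h', h3⟩
    exact h2 h3
  · rintro ⟨⟨h, h1⟩, h2⟩
    exact ⟨h, h1, fun h3 => h2 ⟨h, h3⟩⟩

theorem model_sub {z : P × A} {c0 : Fin p.C} {M : Finset V} (j : Fin p.C) :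
    model p H v φ z c0 M j ⊆ XA A H := by
  unfold model
  split_ifs
  · exact Finset.sdiff_subset.trans Finset.inter_subset_left
  · exact Finset.inter_subset_right

theorem card_model (hA : Fintype.card A = p.B) {z : P × A} (hz : Proper H z) {c0 : Fin p.C}
    (hb : Bald p H (φ c0)) {M : Finset V} (hM : M.card = p.d) :
    ∑ j, (model p H v φ z c0 M j).card = p.k := by
  rw [← Finset.add_sum_erase _ _ (Finset.mem_univ c0)]
  have h1 : (model p H v φ z c0 M c0).card = (p.B - 1) * (p.w * p.d) := by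
    unfold model
    rw [if_pos rfl]
    have h2 : (XA A H ∩ labS A (φ c0) M) \ Ball H v z =
        (XA A H ∩ labS A (φ c0) M) \ (Ball H v z ∩ (XA A H ∩ labS A (φ c0) M)) := by
      ext y
      simp only [Finset.mem_sdiff, Finset.mem_inter, not_and]
      constructor
      · rintro ⟨h1, h2⟩
        exact ⟨h1, fun h => absurd h h2⟩
      · rintro ⟨h1, h2⟩
        exact ⟨h1, fun h => h2 h h1.1 h1.2⟩
    rw [h2, Finset.card_sdiff_of_subset Finset.inter_subset_right, card_ball_lab, card_XA_lab, hA,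
      card_tyS hb, hM, Nat.sub_mul, one_mul]
  have h2 : ∀ j ∈ Finset.univ.erase c0, (model p H v φ z c0 M j).card = p.q := by
    intro j hj
    unfold model
    rw [if_neg (Finset.ne_of_mem_erase hj)]
    exact card_Nb_XA v hz _
  rw [h1, Finset.sum_congr rfl h2, Finset.sum_const, Finset.card_erase_of_mem (Finset.mem_univ _),
    Finset.card_univ, Fintype.card_fin]
  unfold Par.k
  rw [smul_eq_mul, mul_comm (p.C - 1), add_comm]

/-- the family of models -/
noncomputable def MG (p : Par) (H : Host P O p.q) (v : O → A) (φ : Fin p.C → P → V)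
    (MM : Finset (Finset V)) : Finset (Finset (XT A H × Fin p.C)) :=
  (((Finset.univ.filter (fun z : P × A => Proper H z)) ×ˢ (Finset.univ : Finset (Fin p.C))) ×ˢ
    MM).image (fun t => ofSlices p H (model p H v φ t.1.1 t.1.2 t.2))

theorem card_ofSlices {S : Fin p.C → Finset (P × A)} (hS : ∀ j, S j ⊆ XA A H) :
    (ofSlices p H S).card = ∑ j, (S j).card := by
  rw [card_slice]
  apply Finset.sum_congr rfl
  intro j _
  rw [slice_ofSlices, Finset.inter_eq_left.2 (hS j)]

theorem q_two (p : Par) : 2 ≤ p.q := by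
  have h1 := q_ge p
  have h2 := c_ge p
  have h3 : p.c ^ 1 ≤ p.c ^ (p.kT + 12) := Nat.pow_le_pow_right (c_pos p) (by omega)
  rw [pow_one] at h3
  omega

theorem card_MG (hA : Fintype.card A = p.B) (hm : MM.card ≤ p.m) :
    (MG p H v φ MM).card ≤ 2 * p.B * p.q ^ 2 * p.C * p.m := by
  unfold MG
  refine Finset.card_image_le.trans ?_
  rw [Finset.card_product, Finset.card_product, Finset.card_univ, Fintype.card_fin]
  have h1 : (Finset.univ.filter (fun z : P × A => Proper H z)).card ≤ 2 * p.B * p.q ^ 2 := by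
    refine (Finset.card_filter_le _ _).trans ?_
    rw [Finset.card_univ, Fintype.card_prod, hA, H.card_P]
    have h2 := q_two p
    have h3 : p.q ^ 2 + p.q + 1 ≤ 2 * p.q ^ 2 := by nlinarith
    calc (p.q ^ 2 + p.q + 1) * p.B ≤ (2 * p.q ^ 2) * p.B := Nat.mul_le_mul_right _ h3
      _ = _ := by ring
  exact Nat.mul_le_mul (Nat.mul_le_mul_right _ h1) hm

/-- the slices of an independent set -/
theorem ind_slices {U : Finset (XT A H × Fin p.C)} (hU : IndT (GG p H v T φ) U) :
    Ind p H v T φ (slice U) := by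
  refine ⟨?_, ?_, ?_⟩
  · intro j x hx
    rw [mem_slice] at hx
    rw [mem_XA]
    exact hx.1
  · intro j x hx y hy hadj
    rw [mem_slice] at hx hy
    obtain ⟨hx1, hx2⟩ := hx
    obtain ⟨hy1, hy2⟩ := hy
    by_contra hcol
    apply hU _ hx2 _ hy2
    rw [GG_adj]
    unfold adjG
    rw [if_pos rfl]
    exact ⟨hadj, hcol⟩
  · intro j j' hne x hx y hy hyx
    rw [mem_slice] at hx hy
    obtain ⟨hx1, hx2⟩ := hx
    obtain ⟨hy1, hy2⟩ := hy
    apply hU _ hx2 _ hy2
    rw [GG_adj]
    unfold adjG
    rw [if_neg hne]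
    exact hyx

theorem stab_GG
    (hcore : ∀ S : Fin p.C → Finset (P × A), Ind p H v T φ S →
      ∃ (z : P × A) (c0 : Fin p.C), ∃ M ∈ MM, Proper H z ∧
        ∑ j, (S j \ model p H v φ z c0 M j).card + (3 * p.K + 3 + p.c ^ 4) * ∑ j, (S j).card ≤
          (3 * p.K + 3 + p.c ^ 4) * p.k)
    (U : Finset (XT A H × Fin p.C)) (hU : IndT (GG p H v T φ) U) :
    ∃ M ∈ MG p H v φ MM, (U \ M).card + (3 * p.K + 3 + p.c ^ 4) * U.card ≤
      (3 * p.K + 3 + p.c ^ 4) * p.k := by
  obtain ⟨z, c0, M, hM, hz, h⟩ := hcore _ (ind_slices hU)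
  refine ⟨ofSlices p H (model p H v φ z c0 M), ?_, ?_⟩
  · unfold MG
    rw [Finset.mem_image]
    exact ⟨((z, c0), M), by simp [hz, hM], rfl⟩
  · rw [card_slice U, card_slice (U \ _)]
    refine le_trans (le_of_eq ?_) h
    congr 1
    apply Finset.sum_congr rfl
    intro j _
    rw [slice_sdiff, slice_ofSlices, Finset.inter_eq_left.2 (model_sub j)]

/-! ### saturation -/

/-- a maximal independent subset -/
theorem max_ind {W : Type} [Fintype W] [DecidableEq W] (G : SimpleGraph W) (Y : Finset W) :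
    ∃ I ⊆ Y, IndT G I ∧ Y ⊆ I.biUnion (fun u => insert u (nb G u ∩ Y)) := by
  obtain ⟨I, hI, hmax⟩ := Finset.exists_max_image (Y.powerset.filter (fun I => IndT G I))
    Finset.card ⟨∅, by simp [IndT]⟩
  rw [Finset.mem_filter, Finset.mem_powerset] at hI
  refine ⟨I, hI.1, hI.2, ?_⟩
  intro y hy
  rw [Finset.mem_biUnion]
  by_cases hyI : y ∈ I
  · exact ⟨y, hyI, by simp⟩
  by_contra hcon
  push_neg at hcon
  have hind : IndT G (insert y I) := by
    intro a ha b hb
    rw [Finset.mem_insert] at ha hb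
    rcases ha with rfl | ha
    · rcases hb with rfl | hb
      · exact G.irrefl
      · intro h
        have := hcon b hb
        simp only [Finset.mem_insert, Finset.mem_inter, mem_nb, not_or, not_and] at this
        exact this.2 h.symm hy
    · rcases hb with rfl | hb
      · intro h
        have := hcon a ha
        simp only [Finset.mem_insert, Finset.mem_inter, mem_nb, not_or, not_and] at this
        exact this.2 h hy
      · exact hI.2 a ha b hb
  have := hmax (insert y I) (by
    rw [Finset.mem_filter, Finset.mem_powerset]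
    exact ⟨Finset.insert_subset hy hI.1, hind⟩)
  rw [Finset.card_insert_of_notMem hyI] at this
  omega

theorem sat_of_alpha {W : Type} [Fintype W] [DecidableEq W] (G : SimpleGraph W) {k : ℕ}
    (hk : 0 < k) (halpha : ∀ U : Finset W, IndT G U → U.card ≤ k) (Y : Finset W)
    (hY : 3 * k ≤ Y.card) : ∃ y ∈ Y, Y.card ≤ 2 * k * (nb G y ∩ Y).card := by
  by_contra hcon
  push_neg at hcon
  obtain ⟨I, hI1, hI2, hI3⟩ := max_ind G Y
  have hIk := halpha I hI2
  have h1 : Y.card ≤ ∑ u ∈ I, (insert u (nb G u ∩ Y)).card :=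
    (Finset.card_le_card hI3).trans Finset.card_biUnion_le
  have h2 : 2 * k * Y.card ≤ ∑ u ∈ I, (Y.card + 2 * k) := by
    calc 2 * k * Y.card ≤ 2 * k * ∑ u ∈ I, (insert u (nb G u ∩ Y)).card :=
          Nat.mul_le_mul_left _ h1
      _ = ∑ u ∈ I, 2 * k * (insert u (nb G u ∩ Y)).card := Finset.mul_sum _ _ _
      _ ≤ _ := by
          apply Finset.sum_le_sum
          intro u hu
          have h3 := hcon u (hI1 hu)
          have h4 := Finset.card_insert_le u (nb G u ∩ Y)
          calc 2 * k * (insert u (nb G u ∩ Y)).card ≤ 2 * k * ((nb G u ∩ Y).card + 1) :=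
                Nat.mul_le_mul_left _ h4
            _ = 2 * k * (nb G u ∩ Y).card + 2 * k := by ring
            _ ≤ _ := by omega
  rw [Finset.sum_const, smul_eq_mul] at h2
  have h3 : I.card * (Y.card + 2 * k) ≤ k * (Y.card + 2 * k) := Nat.mul_le_mul_right _ hIk
  nlinarith

end GraphB

end Pool.Agent.helper41.TGE
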