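import Pool.Agent.helper41.TGE.CaseL

set_option linter.all false
set_option autoImplicit false

/-!
# Stability of the new graph, slice by slice (MP_ce98d8_co, sections 9 and 10),
given the case S
-/

namespace Pool.Agent.helper41.TGE

open Finset Classical
open Pool.Agent.helper24.TG
open Pool.Agent.helper11.Tight (nb eo mem_nb)

section Main

variable {P O A V : Type} [Fintype P] [DecidableEq P] [Fintype O] [DecidableEq O]
  [Fintype A] [DecidableEq A] [AddCommGroup A] [Fintype V] [DecidableEq V]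

/-- the case S as a statement -/
def CaseS (p : Par) (H : Host P O p.q) (v : O → A) (T : SimpleGraph V)
    (MM : Finset (Finset V)) (φ : Fin p.C → P → V) : Prop :=
  ∀ (S : Fin p.C → Finset (P × A)) (c0 : Fin p.C) (U M : Finset V), Ind p H v T φ S →
    p.c ^ p.x0 * ∑ j ∈ Finset.univ.erase c0, (S j).card ≤ p.k →
    M ∈ MM → U.card ≤ p.d → (U \ M).card ≤ p.K * (p.d - U.card) →
    (∀ i, 2 * (ES p S c0 i).card ≤ p.c ^ 6 * p.q) →
    ∃ z, Proper H z ∧ A2 p H v φ S c0 U M z

/-- sections 9 and 10 -/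
theorem stab_main {p : Par} {H : Host P O p.q} {v : O → A} {T : SimpleGraph V}
    {MM : Finset (Finset V)} {φ : Fin p.C → P → V} (hA : Fintype.card A = p.B)
    (hT : TSp p T MM) (hP : MPr p H v T MM φ) (hcS : CaseS p H v T MM φ)
    (S : Fin p.C → Finset (P × A)) (hS : Ind p H v T φ S) :
    ∃ (z : P × A) (c0 : Fin p.C) (M : Finset V), Proper H z ∧ M ∈ MM ∧
      (∑ j, (S j \ model p H v φ z c0 M j).card) + (3 * p.K + 3 + p.c ^ 4) * ∑ j, (S j).card ≤
        (3 * p.K + 3 + p.c ^ 4) * p.k := by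
  obtain ⟨c0, hR⟩ := hP.rough S hS
  have hb := (hP.one c0).bal
  have hUi := UU_ind hb (hS.sub c0) (hS.own c0)
  have hU := alphaT hT hUi
  obtain ⟨M, hM, hst⟩ := hT.stab _ hUi
  have hUM : (UU p (φ c0) (S c0) \ M).card ≤ p.K * (p.d - (UU p (φ c0) (S c0)).card) := by
    have h1 : p.K * (p.d - (UU p (φ c0) (S c0)).card) =
      p.K * p.d - p.K * (UU p (φ c0) (S c0)).card := Nat.mul_sub _ _ _
    rw [h1]
    omega
  have hex : ∃ z, Proper H z ∧ A2 p H v φ S c0 (UU p (φ c0) (S c0)) M z := by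
    by_cases hXL : ∃ i, p.q * p.B < 24000 * (p.K + 1) * (ES p S c0 i).card
    · obtain ⟨i, hi⟩ := hXL
      exact caseXL hT (hP.one c0) hS hR hM hU hUM hi
    · push_neg at hXL
      by_cases hL : ∃ i, p.c ^ 6 * p.q < 2 * (ES p S c0 i).card
      · obtain ⟨i, hi⟩ := hL
        exact caseL hT (hP.one c0) hS hP.q2 hM hU hUM hXL hi
      · push_neg at hL
        exact hcS S c0 _ M hS hR hM hU hUM hL
  obtain ⟨z, hz, hA2⟩ := hex
  exact ⟨z, c0, M, hz, hM, stab_of_A2 hA hT hS hb (hP.one c0).p5 hUM hA2⟩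

end Main

end Pool.Agent.helper41.TGE
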