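import Pool.Agent.helper41.TGE.Acc

set_option linter.all false
set_option autoImplicit false

/-!
# The tool 9.7 and the cases XL and L (MP_ce98d8_co)
-/

namespace Pool.Agent.helper41.TGE

open Finset Classical
open Pool.Agent.helper24.TG
open Pool.Agent.helper11.Tight (nb eo mem_nb)

section Tool

variable {P O A V : Type} [Fintype P] [DecidableEq P] [Fintype O] [DecidableEq O]
  [Fintype A] [DecidableEq A] [AddCommGroup A] [Fintype V] [DecidableEq V]
variable {p : Par} {H : Host P O p.q} {v : O → A} {T : SimpleGraph V}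
  {MM : Finset (Finset V)} {φ : Fin p.C → P → V} {S : Fin p.C → Finset (P × A)}
  {c0 : Fin p.C} {U M : Finset V}

/-- the points of `M` outside `U` -/
theorem card_M_sdiff (hT : TSp p T MM) (hM : M ∈ MM) (hU : U.card ≤ p.d)
    (hUM : (U \ M).card ≤ p.K * (p.d - U.card)) :
    ((M \ U).card : ℝ) ≤ (p.K + 1) * (p.d - U.card) := by
  have h1 := Finset.card_sdiff_add_card_inter M U
  have h2 := Finset.card_sdiff_add_card_inter U M
  rw [Finset.inter_comm] at h2
  have h3 := hT.card_M M hM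
  have h4 : (M \ U).card ≤ (p.K + 1) * (p.d - U.card) := by
    rw [Nat.add_mul, one_mul]
    omega
  have h5 : ((M \ U).card : ℝ) ≤ (((p.K + 1) * (p.d - U.card) : ℕ) : ℝ) := by exact_mod_cast h4
  rw [Nat.cast_mul, Nat.cast_sub hU] at h5
  push_cast at h5
  exact h5

/-- splitting the neighbourhood of a set in the other slices -/
theorem nbS_split (hS : Ind p H v T φ S) {i : Bool} {Es : Finset (P × A)}
    (hEs : Es ⊆ ES p S c0 i) :
    ((NbS H v i Es ∩ XA A H ∩ labS A (φ c0) M).card : ℝ) ≤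
      RU p H φ S c0 U + (NbS H v i Es ∩ XA A H ∩ labS A (φ c0) (M \ U)).card := by
  unfold RU
  rw [← Nat.cast_add]
  have : NbS H v i Es ∩ XA A H ∩ labS A (φ c0) M ⊆ ((XA A H ∩ labS A (φ c0) U) \ S c0) ∪
      (NbS H v i Es ∩ XA A H ∩ labS A (φ c0) (M \ U)) := by
    intro x hx
    simp only [Finset.mem_inter, mem_labS, mem_NbS] at hx
    obtain ⟨⟨⟨y, hy, hyx⟩, hX⟩, hM⟩ := hx
    have hn : x ∉ S c0 := by
      intro hx0
      have := hEs hy
      rw [mem_ES] at this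
      obtain ⟨j, ⟨hj, hji⟩, hjy⟩ := this
      apply hS.cross j c0 hj y hjy x hx0
      rw [hji, mem_Nb]
      exact hyx
    simp only [Finset.mem_union, Finset.mem_sdiff, Finset.mem_inter, mem_labS, mem_NbS]
    by_cases hU : φ c0 x.1 ∈ U
    · left
      exact ⟨⟨hX, hU⟩, hn⟩
    · right
      exact ⟨⟨⟨y, hy, hyx⟩, hX⟩, hM, hU⟩
  exact_mod_cast (Finset.card_le_card this).trans (Finset.card_union_le _ _)

theorem ES_sub (hS : Ind p H v T φ S) (i : Bool) : ES p S c0 i ⊆ XA A H := by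
  intro x hx
  rw [mem_ES] at hx
  obtain ⟨j, _, hj⟩ := hx
  exact hS.sub j hj

/-- the error terms of (P3) -/
theorem p3_le (hT : TSp p T MM) (hM : M ∈ MM) (hU : U.card ≤ p.d)
    (hUM : (U \ M).card ≤ p.K * (p.d - U.card)) {Es : Finset (P × A)} (h3 : P3 p H v (φ c0))
    (hX : Es ⊆ XA A H) (i : Bool)
    (hsz : (24000 * (p.K + 1) * Es.card : ℝ) ≤ p.q * p.B) :
    ((NbS H v i Es ∩ XA A H ∩ labS A (φ c0) (M \ U)).card : ℝ) ≤
      1 / 100 * (p.B * p.w * (p.d - U.card)) + 1 / 100 * (p.rho * Es.card) := by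
  refine (h3 i Es (M \ U) hX).trans ?_
  have hD := card_M_sdiff hT hM hU hUM
  have hc := rc p
  have hc0 := rc0 p
  have hB := rB p
  have hw := rw' p
  have hK := rK p
  have hq := rq p
  have hN := rN p
  have hdel : (0 : ℝ) ≤ p.d - U.card := by
    have : (U.card : ℝ) ≤ p.d := by exact_mod_cast hU
    linarith
  set D : ℝ := ((M \ U).card : ℝ) with hDd
  have hD0 : 0 ≤ D := Nat.cast_nonneg _
  set δ : ℝ := (p.d : ℝ) - U.card with hδ
  set e : ℝ := (Es.card : ℝ) with he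
  have he0 : 0 ≤ e := Nat.cast_nonneg _
  have hLam := rLam p
  have hLam0 : (0 : ℝ) ≤ p.Lam := Nat.cast_nonneg _
  -- first term
  have t1 : 2 * (p.q : ℝ) * e * D / p.N ≤ 1 / 12000 * (p.B * p.w * δ) := by
    have e1 : 2 * (p.q : ℝ) * e * D / p.N = 2 * e * D * (p.q / p.N) := by ring
    rw [e1, q_div_N]
    have e2 : 2 * e * D * ((p.w : ℝ) / p.q) ≤ 2 * e * ((p.K + 1) * δ) * (p.w / p.q) := by
      gcongr
    refine e2.trans ?_
    have e3 : 2 * e * (((p.K : ℝ) + 1) * δ) * (p.w / p.q) =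
        (24000 * (p.K + 1) * e) * (δ * p.w / p.q / 12000) := by ring
    rw [e3]
    have e4 : (24000 * ((p.K : ℝ) + 1) * e) * (δ * p.w / p.q / 12000) ≤
        (p.q * p.B) * (δ * p.w / p.q / 12000) :=
      mul_le_mul_of_nonneg_right hsz (by positivity)
    refine e4.trans (le_of_eq ?_)
    field_simp
  -- second term
  have t2 : 8 * (p.B : ℝ) * D * p.Lam ≤ 1 / 1000 * (p.B * p.w * δ) := by
    have hwg := w_ge' p
    have e1 : 8 * (p.B : ℝ) * D * p.Lam ≤ 8 * p.B * ((p.K + 1) * δ) * (p.c / 10 ^ 6) := by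
      have : (p.Lam : ℝ) ≤ p.c / 10 ^ 6 := by
        rw [le_div_iff₀ (by norm_num)]; linarith
      gcongr
    refine e1.trans ?_
    have hc10 : (p.c : ℝ) ≤ p.c ^ 10 := by
      calc (p.c : ℝ) = p.c ^ 1 := by ring
        _ ≤ p.c ^ 10 := pow_le_pow_right₀ (rc1 p) (by norm_num)
    have e2 : (p.c : ℝ) * (p.K + 1) ≤ p.w :=
      (mul_le_mul_of_nonneg_right hc10 (by positivity)).trans hwg
    have e3 : 8 * (p.B : ℝ) * (((p.K : ℝ) + 1) * δ) * (p.c / 10 ^ 6) =
        (p.c * (p.K + 1)) * (8 * p.B * δ / 10 ^ 6) := by ring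
    rw [e3]
    have e4 : ((p.c : ℝ) * (p.K + 1)) * (8 * p.B * δ / 10 ^ 6) ≤ p.w * (8 * p.B * δ / 10 ^ 6) :=
      mul_le_mul_of_nonneg_right e2 (by positivity)
    refine e4.trans ?_
    have : 0 ≤ (p.B : ℝ) * p.w * δ := by positivity
    nlinarith
  -- third term
  have t3 : 8 * (p.B : ℝ) * e * p.Lam ≤ 1 / 100 * (p.rho * e) := by
    have hr := rho_ge p
    have e1 : (p.c : ℝ) * p.B ≤ p.rho := by
      refine le_trans ?_ hr
      have h1 : (1 : ℝ) ≤ p.c * p.B := by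
        have h1 := rc1 p
        have h2 : (1 : ℝ) ≤ p.B := by exact_mod_cast B_pos p
        nlinarith
      have h2 : (p.c : ℝ) * p.B ≤ (p.c * p.B) ^ 100 := by
        calc (p.c : ℝ) * p.B = (p.c * p.B) ^ 1 := by ring
          _ ≤ _ := pow_le_pow_right₀ h1 (by norm_num)
      have h3 : 0 ≤ ((p.c : ℝ) * p.B) ^ 100 := pow_nonneg (mul_nonneg hc0.le hB.le) _
      generalize ((p.c : ℝ) * p.B) ^ 100 = Z at h2 h3 ⊢
      nlinarith
    have : 8 * (p.B : ℝ) * p.Lam ≤ 1 / 100 * p.rho := by nlinarith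
    have := mul_le_mul_of_nonneg_right this he0
    linarith
  have hX0 : 0 ≤ (p.B : ℝ) * p.w * δ := by positivity
  have e0 : 8 * (p.B : ℝ) * (e + D) * p.Lam = 8 * p.B * e * p.Lam + 8 * p.B * D * p.Lam := by ring
  rw [e0]
  linarith

/-- 9.7 -/
theorem tool (hT : TSp p T MM) (hP : PPr p H v T MM (φ c0)) (hS : Ind p H v T φ S)
    (hM : M ∈ MM) (hU : U.card ≤ p.d)
    (hUM : (U \ M).card ≤ p.K * (p.d - U.card)) (i : Bool) {Es : Finset (P × A)}
    (hEs : Es ⊆ ES p S c0 i) (hsz : (24000 * (p.K + 1) * Es.card : ℝ) ≤ p.q * p.B) :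
    1 / 2 * (p.rho * Es.card) ≤ RU p H φ S c0 U + 1 / 3 * (p.B * p.w * (p.d - U.card)) := by
  have hX : Es ⊆ XA A H := hEs.trans (ES_sub hS i)
  have h1 := nbS_split (M := M) (U := U) hS hEs
  have h2 := p3_le hT hM hU hUM hP.p3 hX i hsz
  have hK := rK p
  have hsz' : 1000 * Es.card ≤ p.q * p.B := by
    have : (1000 * Es.card : ℝ) ≤ p.q * p.B := by
      refine le_trans ?_ hsz
      have : (0 : ℝ) ≤ Es.card := Nat.cast_nonneg _
      nlinarith
    exact_mod_cast this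
  have h3 := hP.p2 i Es M hX hsz' hM
  have hdel : (0 : ℝ) ≤ p.d - U.card := by
    have : (U.card : ℝ) ≤ p.d := by exact_mod_cast hU
    linarith
  have hX0 : 0 ≤ (p.B : ℝ) * p.w * (p.d - U.card) :=
    mul_nonneg (mul_nonneg (rB p).le (rw' p).le) hdel
  have hr0 : 0 ≤ p.rho * Es.card := mul_nonneg (rho_pos p).le (Nat.cast_nonneg _)
  linarith

theorem QM_le (hT : TSp p T MM) (hb : Bald p H (φ c0)) (hS : Ind p H v T φ S) (hM : M ∈ MM)
    (z : P × A) : QM p H v φ S c0 M z ≤ p.w * p.d := by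
  unfold QM
  have h1 : S c0 ∩ labS A (φ c0) M ∩ Ball H v z ⊆ Ball H v z ∩ (XA A H ∩ labS A (φ c0) M) := by
    intro x hx
    simp only [Finset.mem_inter] at hx ⊢
    exact ⟨hx.2, hS.sub c0 hx.1.1, hx.1.2⟩
  have h2 := Finset.card_le_card h1
  rw [card_ball_lab, card_tyS hb, hT.card_M M hM] at h2
  exact_mod_cast h2

theorem EE_le (z : P × A) : EE p H v S c0 z ≤ Other p S c0 := by
  unfold EE Other
  apply Finset.sum_le_sum
  intro j _
  exact_mod_cast Finset.card_le_card Finset.sdiff_subset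

theorem Other_nonneg : 0 ≤ Other p S c0 := Finset.sum_nonneg (fun _ _ => Nat.cast_nonneg _)

/-- a simple sufficient condition for (A2) -/
theorem A2_of_large (hT : TSp p T MM) (hb : Bald p H (φ c0)) (hS : Ind p H v T φ S) (hM : M ∈ MM)
    (z : P × A)
    (h : 2 * Other p S c0 + 2 * (p.w * p.d) ≤
      RU p H φ S c0 U + 1 / 3 * (p.B * p.w * (p.d - U.card))) :
    A2 p H v φ S c0 U M z := by
  unfold A2
  have h1 := QM_le (v := v) hT hb hS hM z
  have h2 := EE_le (v := v) (H := H) (S := S) (c0 := c0) z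
  have h3 : 0 ≤ Other p S c0 := Other_nonneg
  have h4 : 0 ≤ (p.w : ℝ) * p.d := mul_nonneg (rw' p).le (rd p).le
  have h5 : 1 / (p.c : ℝ) ^ 4 ≤ 1 := by
    rw [div_le_one (pow_pos (rc0 p) 4)]
    exact one_le_pow₀ (rc1 p)
  have h50 : 0 ≤ 1 / (p.c : ℝ) ^ 4 := by have := rc0 p; positivity
  have h6 : (1 / (p.c : ℝ) ^ 4) * (QM p H v φ S c0 M z + EE p H v S c0 z) ≤
      p.w * p.d + Other p S c0 := by
    calc (1 / (p.c : ℝ) ^ 4) * (QM p H v φ S c0 M z + EE p H v S c0 z)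
        ≤ (1 / (p.c : ℝ) ^ 4) * (p.w * p.d + Other p S c0) :=
          mul_le_mul_of_nonneg_left (by linarith) h50
      _ ≤ 1 * (p.w * p.d + Other p S c0) := mul_le_mul_of_nonneg_right h5 (by linarith)
      _ = _ := one_mul _
  have h7 : 0 ≤ (p.q : ℝ) * (p.C - 1) := by
    have : (1 : ℝ) ≤ p.C := by exact_mod_cast C_pos p
    have := rq p
    apply mul_nonneg <;> linarith
  linarith

end Tool

end Pool.Agent.helper41.TGE
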